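import Pool.Agent.Helper72K9.BBP.Galois
import Pool.Agent.H297R2.InBakerThm

open Polynomial IntermediateField

namespace Pool.Agent.Helper72K9.BBP

/-- The rational vector space of logarithms of algebraic numbers. -/
def logSpace : Submodule ℚ ℂ where
  carrier := {z | IsAlgebraic ℚ (Complex.exp z)}
  add_mem' := by
    intro a b ha hb
    change IsAlgebraic ℚ (Complex.exp (a + b))
    rw [Complex.exp_add]
    exact IsAlgebraic.mul ha hb
  zero_mem' := by
    change IsAlgebraic ℚ (Complex.exp 0)
    rw [Complex.exp_zero]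
    exact isAlgebraic_one
  smul_mem' := by
    intro q a ha
    change IsAlgebraic ℚ (Complex.exp (q • a))
    change IsAlgebraic ℚ (Complex.exp a) at ha
    have h1 : (Complex.exp (q • a)) ^ q.den = (Complex.exp a) ^ q.num := by
      rw [← Complex.exp_nat_mul, ← Complex.exp_int_mul]
      congr 1
      rw [Rat.smul_def]
      have h2 : (q : ℂ) = (q.num : ℂ) / (q.den : ℂ) := by
        exact_mod_cast (Rat.num_div_den q).symm
      have h3 : (q.den : ℂ) ≠ 0 := by exact_mod_cast q.den_ne_zero
      rw [h2]; field_simp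
    apply IsAlgebraic.of_pow q.den_pos
    rw [h1]
    have h4 : Complex.exp a ∈ algebraicClosure ℚ ℂ := mem_algebraicClosure_iff.mpr ha
    exact mem_algebraicClosure_iff.mp (zpow_mem h4 q.num)

theorem baker_galois {ι : Type} [Fintype ι] (ω : ι → ℂ)
    (hω : ∀ t, IsAlgebraic ℚ (Complex.exp (ω t))) (c : ι → QB) (c0 : QB)
    (h : ∑ t, (c t : ℂ) * ω t = (c0 : ℂ)) :
    c0 = 0 ∧ ∀ σ : QB ≃ₐ[ℚ] QB, ∑ t, ((σ (c t) : QB) : ℂ) * ω t = 0 := by
  classical
  set V : Submodule ℚ ℂ := Submodule.span ℚ (Set.range ω) with hV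
  have hVL : V ≤ logSpace := by
    rw [hV, Submodule.span_le]
    rintro _ ⟨t, rfl⟩
    exact hω t
  have : Module.Finite ℚ V := Module.Finite.span_of_finite ℚ (Set.finite_range ω)
  set b := Module.finBasis ℚ V with hb
  have hωV : ∀ t, ω t ∈ V := fun t => Submodule.subset_span ⟨t, rfl⟩
  set q : ι → Fin (Module.finrank ℚ V) → ℚ := fun t i => b.repr ⟨ω t, hωV t⟩ i with hq
  have hexp : ∀ t, ω t = ∑ i, (q t i : ℂ) * ((b i : V) : ℂ) := by
    intro t
    have h1 := b.sum_repr ⟨ω t, hωV t⟩
    have h2 := congrArg (fun v : V => (v : ℂ)) h1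
    simp only [Submodule.coe_sum, Submodule.coe_smul] at h2
    rw [← h2]
    refine Finset.sum_congr rfl fun i _ => ?_
    rw [hq, Rat.smul_def]
  have hli : LinearIndependent ℚ (fun i => ((b i : V) : ℂ)) := by
    have := b.linearIndependent.map' V.subtype (Submodule.ker_subtype V)
    exact this
  have halgb : ∀ i, IsAlgebraic ℚ (Complex.exp ((b i : V) : ℂ)) := fun i => hVL (b i).2
  have hswap : ∀ d : ι → QB, ∑ t, (d t : ℂ) * ω t
      = ∑ i, ((∑ t, d t * algebraMap ℚ QB (q t i) : QB) : ℂ) * ((b i : V) : ℂ) := by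
    intro d
    calc ∑ t, (d t : ℂ) * ω t = ∑ t, ∑ i, (d t : ℂ) * ((q t i : ℂ) * ((b i : V) : ℂ)) := by
          refine Finset.sum_congr rfl fun t _ => ?_
          rw [← Finset.mul_sum, ← hexp t]
      _ = ∑ i, ∑ t, (d t : ℂ) * ((q t i : ℂ) * ((b i : V) : ℂ)) := Finset.sum_comm
      _ = _ := by
          refine Finset.sum_congr rfl fun i _ => ?_
          have h1 : ((∑ t, d t * algebraMap ℚ QB (q t i) : QB) : ℂ)
              = ∑ t, (d t : ℂ) * (q t i : ℂ) := by
            have h2 : ∀ s : Finset ι, ((∑ t ∈ s, d t * algebraMap ℚ QB (q t i) : QB) : ℂ)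
                = ∑ t ∈ s, (d t : ℂ) * (q t i : ℂ) := by
              intro s
              induction s using Finset.induction_on with
              | empty => simp
              | insert a s ha ih =>
                rw [Finset.sum_insert ha, Finset.sum_insert ha, ← ih]
                rfl
            exact h2 _
          rw [h1, Finset.sum_mul]
          refine Finset.sum_congr rfl fun t _ => ?_
          ring
  have hb0 := Pool.Agent.H297R2.baker_inhom (fun i => ((b i : V) : ℂ)) halgb hli (-(c0 : ℂ))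
    (mem_algebraicClosure_iff.mp (-c0).2)
    (fun i => ((∑ t, c t * algebraMap ℚ QB (q t i) : QB) : ℂ))
    (fun i => mem_algebraicClosure_iff.mp (∑ t, c t * algebraMap ℚ QB (q t i) : QB).2)
    (by rw [← hswap, h]; ring)
  obtain ⟨h1, h2⟩ := hb0
  constructor
  · apply Subtype.ext
    have : (c0 : ℂ) = 0 := neg_eq_zero.mp h1
    rw [this]; rfl
  · intro σ
    rw [hswap (fun t => σ (c t))]
    apply Finset.sum_eq_zero
    intro i _
    have h3 : (∑ t, c t * algebraMap ℚ QB (q t i) : QB) = 0 := Subtype.ext (h2 i)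
    have h4 : (∑ t, σ (c t) * algebraMap ℚ QB (q t i) : QB) = 0 := by
      have h5 := congrArg σ h3
      rw [map_sum, map_zero] at h5
      rw [← h5]
      refine Finset.sum_congr rfl fun t _ => ?_
      rw [map_mul, AlgEquiv.commutes]
    simp only [h4]
    simp

end Pool.Agent.Helper72K9.BBP
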