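import Pool.Agent.Helper72K9.BBP.LinInd
import Pool.Agent.Helper72K9.BBP.BakerGal

open Finset

namespace Pool.Agent.Helper72K9.BBP

variable {ι : Type}

/-- The coefficients of the logarithms in a combination of degree-one series. -/
noncomputable def cf (M : ℕ) (hM : 0 < M) (s : Finset ι) (J : ι → ℕ) (A : ι → QB) (y : QB)
    (t : ℕ) : QB :=
  ∑ i ∈ s, A i * (-((M : QB)⁻¹ * (y ^ J i)⁻¹ * (ztQ M hM) ^ ((M - J i) * t)))

/-- The family `π i, log (1 - ζ ^ t x)`. -/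
noncomputable def fam2 (M : ℕ) (x : ℝ) : Option (Fin M) → ℂ := fun i =>
  i.elim ((Real.pi : ℂ) * Complex.I) (fun t => Complex.log (1 - zt M ^ (t : ℕ) * (x : ℂ)))

theorem expand (M : ℕ) (hM : 0 < M) (x : ℝ) (hx0 : 0 < x) (hx1 : x < 1) (xQ : QB)
    (hxQ : (xQ : ℂ) = x) (s : Finset ι) (J : ι → ℕ) (hJ : ∀ i ∈ s, 0 < J i ∧ J i ≤ M)
    (A : ι → QB) :
    ∑ i ∈ s, (A i : ℂ) * S ((x : ℂ) ^ M) M (J i)
      = ∑ t : Fin M, (cf M hM s J A xQ t : ℂ) * Complex.log (1 - zt M ^ (t : ℕ) * (x : ℂ)) := by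
  have h1 : ∀ t : ℕ, (cf M hM s J A xQ t : ℂ)
      = ∑ i ∈ s, (A i : ℂ) * (-((M : ℂ)⁻¹ * ((x : ℂ) ^ J i)⁻¹ * zt M ^ ((M - J i) * t))) := by
    intro t
    change algebraMap QB ℂ (cf M hM s J A xQ t) = _
    rw [cf, map_sum]
    refine sum_congr rfl fun i _ => ?_
    rw [map_mul, map_neg, map_mul, map_mul, map_inv₀, map_inv₀, map_pow, map_pow, map_natCast]
    change (A i : ℂ) * (-((M : ℂ)⁻¹ * ((xQ : ℂ) ^ J i)⁻¹ * zt M ^ ((M - J i) * t))) = _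
    rw [hxQ]
  rw [Fin.sum_univ_eq_sum_range
    (fun t => (cf M hM s J A xQ t : ℂ) * Complex.log (1 - zt M ^ t * (x : ℂ)))]
  simp_rw [h1, sum_mul]
  rw [sum_comm]
  refine sum_congr rfl fun i hi => ?_
  rw [S_eq M (J i) hM (hJ i hi).1 (hJ i hi).2 x hx0 hx1, mul_sum]
  refine sum_congr rfl fun t _ => ?_
  ring

theorem alg_one_sub (M : ℕ) (hM : 0 < M) (x : ℝ) (hx : IsAlgebraic ℚ (x : ℂ)) (hx0 : 0 < x)
    (hx1 : x < 1) (i : Option (Fin M)) : IsAlgebraic ℚ (Complex.exp (fam2 M x i)) := by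
  cases i with
  | none =>
    change IsAlgebraic ℚ (Complex.exp ((Real.pi : ℂ) * Complex.I))
    rw [Complex.exp_pi_mul_I]
    exact isAlgebraic_one.neg
  | some t =>
    change IsAlgebraic ℚ (Complex.exp (Complex.log (1 - zt M ^ (t : ℕ) * (x : ℂ))))
    rw [Complex.exp_log (one_sub_ne M hM t x hx0 hx1)]
    exact isAlgebraic_one.sub (((alg_zt M hM).pow _).mul hx)

theorem alg_I : IsAlgebraic ℚ Complex.I := by
  apply IsAlgebraic.of_pow (n := 2) (by norm_num)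
  rw [Complex.I_sq]
  exact isAlgebraic_one.neg

/-- The imaginary unit in `QB`. -/
noncomputable def iQ : QB := mkQ Complex.I alg_I

theorem coe_iQ : ((iQ : QB) : ℂ) = Complex.I := rfl

theorem iQ_mem : iQ ∈ CMF := by
  refine root_mem_CMF iQ 4 (by norm_num) ?_
  apply Subtype.ext
  change Complex.I ^ 4 = 1
  exact Complex.I_pow_four

theorem pi_eq (β : QB) : ((β * iQ : QB) : ℂ) * ((Real.pi : ℂ) * Complex.I) = -((β : ℂ) * Real.pi) := by
  change ((β : ℂ) * Complex.I) * ((Real.pi : ℂ) * Complex.I) = _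
  have : Complex.I * Complex.I = -1 := Complex.I_mul_I
  linear_combination (β : ℂ) * (Real.pi : ℂ) * this

/-- Final step: modulus `M` and argument `1 / √10`. -/
theorem base_case (M : ℕ) (hM : 0 < M) (s : Finset ι) (J : ι → ℕ)
    (hJ : ∀ i ∈ s, 0 < J i ∧ J i ≤ M) (A : ι → QB) (β : QB)
    (h : ∑ i ∈ s, (A i : ℂ) * S ((((Real.sqrt 10)⁻¹ : ℝ) : ℂ) ^ M) M (J i) = (β : ℂ) * Real.pi) :
    β = 0 := by
  have hx : (((sQ)⁻¹ : QB) : ℂ) = (((Real.sqrt 10)⁻¹ : ℝ) : ℂ) := by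
    change algebraMap QB ℂ ((sQ)⁻¹) = _
    rw [map_inv₀, Complex.ofReal_inv]
    rfl
  rw [expand M hM _ inv_sqrt_pos inv_sqrt_lt _ hx s J hJ A] at h
  have hxa : IsAlgebraic ℚ ((((Real.sqrt 10)⁻¹ : ℝ) : ℂ)) := by
    rw [← hx]; exact mem_algebraicClosure_iff.mp (sQ⁻¹ : QB).2
  have hb := Pool.Agent.H297R2.baker_inhom (fam2 M (Real.sqrt 10)⁻¹)
    (fun i => alg_one_sub M hM _ hxa inv_sqrt_pos inv_sqrt_lt i) (linInd M hM) 0
    isAlgebraic_zero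
    (fun i => i.elim (((β * iQ : QB)) : ℂ) (fun t => ((cf M hM s J A sQ⁻¹ t : QB) : ℂ)))
    (fun i => by
      cases i with
      | none => exact mem_algebraicClosure_iff.mp (β * iQ : QB).2
      | some t => exact mem_algebraicClosure_iff.mp (cf M hM s J A sQ⁻¹ t : QB).2)
    (by
      rw [Fintype.sum_option]
      change 0 + ((((β * iQ : QB)) : ℂ) * ((Real.pi : ℂ) * Complex.I) +
        ∑ t : Fin M, ((cf M hM s J A sQ⁻¹ t : QB) : ℂ) *
          Complex.log (1 - zt M ^ (t : ℕ) * (((Real.sqrt 10)⁻¹ : ℝ) : ℂ))) = 0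
      rw [h, pi_eq]; ring)
  have h0 := hb.2 none
  change ((β : ℂ) * Complex.I) = 0 at h0
  have h1 : (β : ℂ) = 0 := (mul_eq_zero.mp h0).resolve_right Complex.I_ne_zero
  exact Subtype.ext h1

theorem cf_map (M : ℕ) (hM : 0 < M) (s : Finset ι) (J : ι → ℕ) (A : ι → QB)
    (hA : ∀ i ∈ s, A i ∈ CMF) (y : QB) (t : ℕ) (σ : QB ≃ₐ[ℚ] QB) (hσ : ∀ z ∈ CMF, σ z = z) :
    σ (cf M hM s J A y t) = cf M hM s J A (σ y) t := by
  rw [cf, cf, map_sum]
  refine sum_congr rfl fun i hi => ?_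
  rw [map_mul, map_neg, map_mul, map_mul, map_inv₀, map_inv₀, map_pow, map_pow, map_natCast,
    hσ _ (hA i hi), hσ _ (ztQ_mem M hM)]

theorem geomQ (d : ℕ) (hd : 0 < d) (J : ℕ) :
    ∑ k ∈ range d, (((ztQ d hd ^ k) ^ J)⁻¹ : QB) = if d ∣ J then (d : QB) else 0 := by
  have hp := ztQ_prim d hd
  have h1 : ∀ k, (((ztQ d hd ^ k) ^ J)⁻¹ : QB) = ((ztQ d hd ^ J)⁻¹) ^ k := by
    intro k
    rw [inv_pow, ← pow_mul, ← pow_mul, mul_comm]
  simp_rw [h1]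
  split_ifs with h
  · have : ztQ d hd ^ J = 1 := (hp.pow_eq_one_iff_dvd J).mpr h
    simp [this]
  · have h2 : (ztQ d hd ^ J)⁻¹ ≠ 1 := by
      intro h3
      rw [inv_eq_one] at h3
      exact h ((hp.pow_eq_one_iff_dvd J).mp h3)
    rw [geom_sum_eq h2, inv_pow, ← pow_mul, mul_comm, pow_mul, hp.pow_eq_one, one_pow, inv_one,
      sub_self, zero_div]

theorem cf_average (M : ℕ) (hM : 0 < M) (s : Finset ι) (J : ι → ℕ) (A : ι → QB) (y : QB)
    (t : ℕ) (d : ℕ) (hd : 0 < d) :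
    ∑ k ∈ range d, cf M hM s J A (ztQ d hd ^ k * y) t
      = (d : QB) * cf M hM (s.filter (fun i => d ∣ J i)) J A y t := by
  simp_rw [cf]
  rw [sum_comm, mul_sum, sum_filter]
  refine sum_congr rfl fun i _ => ?_
  have h1 : ∀ k, A i * (-((M : QB)⁻¹ * ((ztQ d hd ^ k * y) ^ J i)⁻¹ * (ztQ M hM) ^ ((M - J i) * t)))
      = A i * (-((M : QB)⁻¹ * (y ^ J i)⁻¹ * (ztQ M hM) ^ ((M - J i) * t))) *
        ((ztQ d hd ^ k) ^ J i)⁻¹ := by
    intro k
    rw [mul_pow, mul_inv]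
    ring
  simp_rw [h1]
  rw [← mul_sum, geomQ d hd]
  split_ifs with h
  · ring
  · rw [mul_zero]

theorem averaged (M : ℕ) (hM : 0 < M) (N : ℕ) (hN : 0 < N) (x : ℝ) (hx0 : 0 < x) (hx1 : x < 1)
    (hxN : x ^ N = 1 / 10) (s : Finset ι) (J : ι → ℕ) (hJ : ∀ i ∈ s, 0 < J i ∧ J i ≤ M)
    (A : ι → QB) (hA : ∀ i ∈ s, A i ∈ CMF) (α β : QB) (hβ : β ∈ CMF)
    (h : ∑ i ∈ s, (A i : ℂ) * S ((x : ℂ) ^ M) M (J i) = (α : ℂ) + (β : ℂ) * Real.pi) :
    ∃ d : ℕ, 0 < d ∧ N ∣ 2 * d ∧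
      ∑ i ∈ s.filter (fun i => d ∣ J i), (A i : ℂ) * S ((x : ℂ) ^ M) M (J i)
        = (β : ℂ) * Real.pi := by
  have hxC : (x : ℂ) ^ N = algebraMap ℚ ℂ (1 / 10) := by
    rw [← Complex.ofReal_pow, hxN]
    simp
  have hxa : IsAlgebraic ℚ (x : ℂ) := by
    apply IsAlgebraic.of_pow hN
    rw [hxC]; exact isAlgebraic_algebraMap _
  obtain ⟨xQ, hxQ⟩ : ∃ xQ : QB, (xQ : ℂ) = x := ⟨mkQ x hxa, rfl⟩
  have hxQN : xQ ^ N = algebraMap ℚ QB (1 / 10) := by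
    apply Subtype.ext
    change (xQ : ℂ) ^ N = algebraMap QB ℂ (algebraMap ℚ QB (1 / 10))
    rw [hxQ, hxC, ← IsScalarTower.algebraMap_apply ℚ QB ℂ]
  obtain ⟨d, hd, hNd, hshift⟩ := exists_shift N hN xQ hxQN x hx0 hxQ
  have hrel := baker_galois (fam2 M x) (fun i => alg_one_sub M hM x hxa hx0 hx1 i)
    (fun i => i.elim (β * iQ) (fun t => cf M hM s J A xQ t)) α (by
      rw [Fintype.sum_option]
      change (((β * iQ : QB)) : ℂ) * ((Real.pi : ℂ) * Complex.I) +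
        ∑ t : Fin M, ((cf M hM s J A xQ t : QB) : ℂ) *
          Complex.log (1 - zt M ^ (t : ℕ) * (x : ℂ)) = α
      rw [← expand M hM x hx0 hx1 xQ hxQ s J hJ A, h, pi_eq]; ring)
  refine ⟨d, hd, hNd, ?_⟩
  have hk : ∀ k : ℕ, ∑ t : Fin M, ((cf M hM s J A (ztQ d hd ^ k * xQ) t : QB) : ℂ) *
      Complex.log (1 - zt M ^ (t : ℕ) * (x : ℂ)) = (β : ℂ) * Real.pi := by
    intro k
    obtain ⟨σ, hσ1, hσ2⟩ := hshift (ztQ d hd ^ k) (by
      rw [← pow_mul, mul_comm, pow_mul, ztQ_pow, one_pow])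
    have h1 := hrel.2 σ
    rw [Fintype.sum_option] at h1
    change (((σ (β * iQ) : QB)) : ℂ) * ((Real.pi : ℂ) * Complex.I) +
        ∑ t : Fin M, ((σ (cf M hM s J A xQ t) : QB) : ℂ) *
          Complex.log (1 - zt M ^ (t : ℕ) * (x : ℂ)) = 0 at h1
    rw [hσ1 _ (CMF.mul_mem hβ iQ_mem), pi_eq] at h1
    have h2 : ∀ t : Fin M, ((σ (cf M hM s J A xQ t) : QB) : ℂ) *
          Complex.log (1 - zt M ^ (t : ℕ) * (x : ℂ)) =
        ((cf M hM s J A (ztQ d hd ^ k * xQ) t : QB) : ℂ) *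
          Complex.log (1 - zt M ^ (t : ℕ) * (x : ℂ)) := by
      intro t
      rw [cf_map M hM s J A hA xQ t σ hσ1, hσ2]
    rw [Finset.sum_congr rfl (fun t _ => h2 t)] at h1
    linear_combination h1
  have hsum : ∑ k ∈ range d, ∑ t : Fin M, ((cf M hM s J A (ztQ d hd ^ k * xQ) t : QB) : ℂ) *
      Complex.log (1 - zt M ^ (t : ℕ) * (x : ℂ)) = (d : ℂ) * ((β : ℂ) * Real.pi) := by
    rw [Finset.sum_congr rfl (fun k _ => hk k), sum_const, card_range, nsmul_eq_mul]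
  rw [sum_comm] at hsum
  have h3 : ∀ t : Fin M, ∑ k ∈ range d, ((cf M hM s J A (ztQ d hd ^ k * xQ) t : QB) : ℂ) *
      Complex.log (1 - zt M ^ (t : ℕ) * (x : ℂ)) =
      (d : ℂ) * (((cf M hM (s.filter (fun i => d ∣ J i)) J A xQ t : QB) : ℂ) *
        Complex.log (1 - zt M ^ (t : ℕ) * (x : ℂ))) := by
    intro t
    rw [← sum_mul]
    have h4 : ∑ k ∈ range d, ((cf M hM s J A (ztQ d hd ^ k * xQ) t : QB) : ℂ)
        = (d : ℂ) * ((cf M hM (s.filter (fun i => d ∣ J i)) J A xQ t : QB) : ℂ) := by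
      have h5 := congrArg (algebraMap QB ℂ) (cf_average M hM s J A xQ t d hd)
      rw [map_sum, map_mul, map_natCast] at h5
      exact h5
    rw [h4]; ring
  rw [Finset.sum_congr rfl (fun t _ => h3 t), ← mul_sum] at hsum
  have hd0 : (d : ℂ) ≠ 0 := by exact_mod_cast hd.ne'
  have h6 := mul_left_cancel₀ hd0 hsum
  rw [expand M hM x hx0 hx1 xQ hxQ (s.filter (fun i => d ∣ J i)) J
    (fun i hi => hJ i (Finset.mem_filter.mp hi).1) A]
  exact h6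

/-- The core theorem. -/
theorem core (m n : ℕ) (hm : 0 < m) (hn : 0 < n) (s : Finset ι) (j : ι → ℕ)
    (hj : ∀ i ∈ s, 0 < j i ∧ j i ≤ n) (a : ι → QB) (ha : ∀ i ∈ s, a i ∈ CMF) (α β : QB)
    (hβ : β ∈ CMF)
    (h : ∑ i ∈ s, (a i : ℂ) * S ((1 / 10 : ℂ) ^ m) n (j i) = (α : ℂ) + (β : ℂ) * Real.pi) :
    β = 0 := by
  -- the real number x = 10 ^ (-1/(2n))
  obtain ⟨x, hx0, hxN⟩ : ∃ x : ℝ, 0 < x ∧ x ^ (2 * n) = 1 / 10 := by
    refine ⟨(1 / 10 : ℝ) ^ ((1 : ℝ) / ((2 * n : ℕ) : ℝ)), by positivity, ?_⟩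
    rw [← Real.rpow_natCast, ← Real.rpow_mul (by norm_num)]
    rw [one_div_mul_cancel (by positivity), Real.rpow_one]
  have hx1 : x < 1 := by
    by_contra hcon
    push Not at hcon
    have := one_le_pow₀ (n := 2 * n) hcon
    rw [hxN] at this
    norm_num at this
  set M := 2 * m * n with hM
  have hM0 : 0 < M := by positivity
  have hxM : (x : ℂ) ^ M = (1 / 10 : ℂ) ^ m := by
    have : M = (2 * n) * m := by rw [hM]; ring
    rw [this, pow_mul, ← Complex.ofReal_pow, hxN]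
    push_cast; rfl
  have h1 : ∑ i ∈ s, (((2 * m : ℕ) : QB) * a i : QB) * S ((x : ℂ) ^ M) M (2 * m * j i)
      = (α : ℂ) + (β : ℂ) * Real.pi := by
    rw [← h, hxM]
    refine sum_congr rfl fun i _ => ?_
    rw [S_scale _ (2 * m) n (j i) (by positivity)]
    change (algebraMap QB ℂ (((2 * m : ℕ) : QB) * a i)) * _ = _
    rw [map_mul, map_natCast]
    change ((2 * m : ℕ) : ℂ) * (a i : ℂ) * _ = _
    rw [hM]
    ring
  obtain ⟨d, hd, hNd, h2⟩ := averaged M hM0 (2 * n) (by positivity) x hx0 hx1 hxN s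
    (fun i => 2 * m * j i) (fun i hi => ⟨by have := (hj i hi).1; positivity, by
      rw [hM]; exact Nat.mul_le_mul_left _ (hj i hi).2⟩)
    (fun i => ((2 * m : ℕ) : QB) * a i)
    (fun i hi => CMF.mul_mem (natCast_mem CMF _) (ha i hi)) α β hβ h1
  have hnd : n ∣ d := Nat.dvd_of_mul_dvd_mul_left (by norm_num : 0 < 2) hNd
  -- reduce to modulus 2 m
  have hxs : (((Real.sqrt 10)⁻¹ : ℝ) : ℂ) ^ (2 * m) = (1 / 10 : ℂ) ^ m := by
    rw [pow_mul, ← Complex.ofReal_pow, inv_pow, Real.sq_sqrt (by norm_num)]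
    push_cast; norm_num
  refine base_case (2 * m) (by positivity) (s.filter (fun i => d ∣ 2 * m * j i))
    (fun i => 2 * m * j i / n) ?_ (fun i => ((2 * m : ℕ) : QB) * a i * ((n : ℕ) : QB)⁻¹) β ?_
  · intro i hi
    rw [mem_filter] at hi
    have h3 : n ∣ 2 * m * j i := hnd.trans hi.2
    have h4 := hj i hi.1
    constructor
    · exact Nat.div_pos (Nat.le_of_dvd (by have := h4.1; positivity) h3) hn
    · apply Nat.div_le_of_le_mul
      rw [mul_comm n]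
      exact Nat.mul_le_mul_left _ h4.2
  · rw [← h2, hxs, hxM]
    refine sum_congr rfl fun i hi => ?_
    rw [mem_filter] at hi
    have h3 : n ∣ 2 * m * j i := hnd.trans hi.2
    rw [S_scale _ n (2 * m) (2 * m * j i / n) hn, Nat.mul_div_cancel' h3, mul_comm n (2 * m), ← hM]
    change (algebraMap QB ℂ (((2 * m : ℕ) : QB) * a i * ((n : ℕ) : QB)⁻¹)) * _
      = (algebraMap QB ℂ (((2 * m : ℕ) : QB) * a i)) * _
    rw [map_mul _ _ (((n : ℕ) : QB)⁻¹), map_inv₀, map_natCast (algebraMap QB ℂ) n]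
    have hn0 : (n : ℂ) ≠ 0 := by exact_mod_cast hn.ne'
    field_simp

end Pool.Agent.Helper72K9.BBP
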