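import Pool.Agent.Helper72K9.BBP.Core

open Finset

namespace Pool.Agent.Helper72K9.BBP

theorem coeff_zero {κ : Type} [Fintype κ] (ω0 : ℂ) (ω : κ → ℂ)
    (hω0 : IsAlgebraic ℚ (Complex.exp ω0)) (hω : ∀ t, IsAlgebraic ℚ (Complex.exp (ω t)))
    (h0 : ω0 ∉ Submodule.span ℚ (Set.range ω)) (c0 : QB) (c : κ → QB)
    (h : (c0 : ℂ) * ω0 + ∑ t, (c t : ℂ) * ω t = 0) : c0 = 0 := by
  classical
  set V : Submodule ℚ ℂ := Submodule.span ℚ (Set.range ω) with hV
  have hVL : V ≤ logSpace := by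
    rw [hV, Submodule.span_le]
    rintro _ ⟨t, rfl⟩
    exact hω t
  have : Module.Finite ℚ V := Module.Finite.span_of_finite ℚ (Set.finite_range ω)
  set b := Module.finBasis ℚ V with hb
  have hωV : ∀ t, ω t ∈ V := fun t => Submodule.subset_span ⟨t, rfl⟩
  set q : κ → Fin (Module.finrank ℚ V) → ℚ := fun t i => b.repr ⟨ω t, hωV t⟩ i with hq
  have hexp : ∀ t, ω t = ∑ i, (q t i : ℂ) * ((b i : V) : ℂ) := by
    intro t
    have h1 := b.sum_repr ⟨ω t, hωV t⟩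
    have h2 := congrArg (fun v : V => (v : ℂ)) h1
    simp only [Submodule.coe_sum, Submodule.coe_smul] at h2
    rw [← h2]
    refine Finset.sum_congr rfl fun i _ => ?_
    rw [hq, Rat.smul_def]
  have hli : LinearIndependent ℚ (fun i => ((b i : V) : ℂ)) := by
    have := b.linearIndependent.map' V.subtype (Submodule.ker_subtype V)
    exact this
  have hrange : Submodule.span ℚ (Set.range (fun i => ((b i : V) : ℂ))) ≤ V := by
    rw [Submodule.span_le]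
    rintro _ ⟨i, rfl⟩
    exact (b i).2
  set f : Option (Fin (Module.finrank ℚ V)) → ℂ := fun o => o.elim ω0 (fun i => ((b i : V) : ℂ))
    with hf
  have hlif : LinearIndependent ℚ f := by
    rw [linearIndependent_option]
    refine ⟨hli, ?_⟩
    intro hmem
    exact h0 (hrange hmem)
  have halg : ∀ o, IsAlgebraic ℚ (Complex.exp (f o)) := by
    intro o
    cases o with
    | none => exact hω0
    | some i => exact hVL (b i).2
  have hb0 := Pool.Agent.H297R2.baker_inhom f halg hlif 0 isAlgebraic_zero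
    (fun o => o.elim (c0 : ℂ) (fun i => ∑ t, (c t : ℂ) * (q t i : ℂ)))
    (fun o => by
      cases o with
      | none => exact mem_algebraicClosure_iff.mp c0.2
      | some i =>
        change IsAlgebraic ℚ (∑ t, (c t : ℂ) * (q t i : ℂ))
        have h1 : ∑ t, (c t : ℂ) * (q t i : ℂ) ∈ algebraicClosure ℚ ℂ := by
          refine sum_mem fun t _ => mul_mem (c t).2 ?_
          exact (algebraicClosure ℚ ℂ).algebraMap_mem (q t i)
        exact mem_algebraicClosure_iff.mp h1)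
    (by
      rw [Fintype.sum_option]
      change 0 + ((c0 : ℂ) * ω0 + ∑ i, (∑ t, (c t : ℂ) * (q t i : ℂ)) * ((b i : V) : ℂ)) = 0
      rw [zero_add, ← h]
      congr 1
      simp_rw [sum_mul]
      rw [sum_comm]
      refine sum_congr rfl fun t _ => ?_
      conv_rhs => rw [hexp t, mul_sum]
      refine sum_congr rfl fun i _ => ?_
      ring)
  have h1 := hb0.2 none
  exact Subtype.ext h1

theorem conj_log (M : ℕ) (hM : 0 < M) (t : ℕ) (x : ℝ) (hx0 : 0 < x) (hx1 : x < 1) :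
    (starRingEnd ℂ) (Complex.log (1 - zt M ^ t * (x : ℂ)))
      = Complex.log (1 - zt M ^ ((M - t % M) % M) * (x : ℂ)) := by
  have h1 : (starRingEnd ℂ) (zt M ^ t) = zt M ^ ((M - t % M) % M) := by
    have h2 : zt M ^ t * zt M ^ ((M - t % M) % M) = 1 := by
      rw [← pow_add, (zt_prim M hM).pow_eq_one_iff_dvd, Nat.dvd_iff_mod_eq_zero, Nat.add_mod,
        Nat.mod_mod]
      rcases Nat.eq_zero_or_pos (t % M) with h | h
      · rw [h]; simp
      · have h3 : t % M < M := Nat.mod_lt _ hM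
        rw [Nat.mod_eq_of_lt (show M - t % M < M by omega), show t % M + (M - t % M) = M by omega,
          Nat.mod_self]
    have h4 : (starRingEnd ℂ) (zt M ^ t) * zt M ^ t = 1 := by
      rw [mul_comm, Complex.mul_conj, Complex.normSq_eq_norm_sq, norm_zt M hM]
      simp
    have h5 : zt M ^ t ≠ 0 := by
      intro h
      rw [h, mul_zero] at h4
      exact zero_ne_one h4
    apply mul_right_cancel₀ h5
    rw [h4, mul_comm, h2]
  rw [← Complex.log_conj, map_sub, map_one, map_mul, h1, Complex.conj_ofReal]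
  intro harg
  have h6 : 0 < (1 - zt M ^ t * (x : ℂ)).re := by
    rw [Complex.sub_re, Complex.one_re]
    have h7 : (zt M ^ t * (x : ℂ)).re ≤ ‖zt M ^ t * (x : ℂ)‖ := Complex.re_le_norm _
    rw [norm_mul, norm_zt M hM, one_mul, Complex.norm_real, Real.norm_eq_abs, abs_of_pos hx0] at h7
    linarith
  have h8 := Complex.arg_eq_pi_iff.mp harg
  linarith [h8.1]

/-- `π i` is not a rational combination of the logarithms `log (1 - ζ ^ t / √10)` and of
logarithms of positive numbers. -/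
theorem pi_not_mem (M : ℕ) (hM : 0 < M) {κ : Type} [Fintype κ] (ρ : κ → ℝ) :
    ((Real.pi : ℂ) * Complex.I) ∉ Submodule.span ℚ (Set.range (Sum.elim
      (fun t : Fin M => Complex.log (1 - zt M ^ (t : ℕ) * (((Real.sqrt 10)⁻¹ : ℝ) : ℂ)))
      (fun k : κ => ((Real.log (ρ k) : ℝ) : ℂ)))) := by
  intro hmem
  rw [Submodule.mem_span_range_iff_exists_fun] at hmem
  obtain ⟨c, hc⟩ := hmem
  rw [Fintype.sum_sum_type] at hc
  simp only [Sum.elim_inl, Sum.elim_inr] at hc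
  have hconj := congrArg (starRingEnd ℂ) hc
  rw [map_add, map_sum, map_sum, map_mul, Complex.conj_ofReal, Complex.conj_I] at hconj
  have h1 : ∀ k : κ, (starRingEnd ℂ) (c (Sum.inr k) • ((Real.log (ρ k) : ℝ) : ℂ))
      = c (Sum.inr k) • ((Real.log (ρ k) : ℝ) : ℂ) := by
    intro k
    rw [Rat.smul_def, map_mul, Complex.conj_ofReal, map_ratCast]
  have hneg : ∀ t : Fin M, (M - (t : ℕ) % M) % M < M := fun t => Nat.mod_lt _ hM
  have h2 : ∀ t : Fin M, (starRingEnd ℂ) (c (Sum.inl t) •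
      Complex.log (1 - zt M ^ (t : ℕ) * (((Real.sqrt 10)⁻¹ : ℝ) : ℂ)))
      = c (Sum.inl t) • fam M (some ⟨(M - (t : ℕ) % M) % M, hneg t⟩) := by
    intro t
    rw [Rat.smul_def, Rat.smul_def, map_mul, map_ratCast,
      conj_log M hM t _ inv_sqrt_pos inv_sqrt_lt]
    rfl
  simp_rw [h1, h2] at hconj
  have hdiff : ∑ t : Fin M, c (Sum.inl t) • fam M (some t)
      - ∑ t : Fin M, c (Sum.inl t) • fam M (some ⟨(M - (t : ℕ) % M) % M, hneg t⟩)
      = (2 : ℚ) • fam M none := by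
    have h3 : (2 : ℚ) • fam M none = 2 * ((Real.pi : ℂ) * Complex.I) := by
      rw [Rat.smul_def]
      change ((2 : ℚ) : ℂ) * ((Real.pi : ℂ) * Complex.I) = _
      push_cast; rfl
    rw [h3]
    have h4 : ∑ t : Fin M, c (Sum.inl t) • fam M (some t)
        = ∑ t : Fin M, c (Sum.inl t) •
          Complex.log (1 - zt M ^ (t : ℕ) * (((Real.sqrt 10)⁻¹ : ℝ) : ℂ)) := rfl
    rw [h4]
    linear_combination hc - hconj
  have hli := linInd M hM
  have h5 : (2 : ℚ) • fam M none ∈ Submodule.span ℚ (Set.range (fun t : Fin M => fam M (some t))) := by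
    rw [← hdiff]
    refine Submodule.sub_mem _ ?_ ?_
    · exact Submodule.sum_mem _ fun t _ => Submodule.smul_mem _ _ (Submodule.subset_span ⟨t, rfl⟩)
    · exact Submodule.sum_mem _ fun t _ => Submodule.smul_mem _ _ (Submodule.subset_span ⟨_, rfl⟩)
  have h6 : fam M none ∈ Submodule.span ℚ (Set.range (fun t : Fin M => fam M (some t))) := by
    have := Submodule.smul_mem _ (1 / 2 : ℚ) h5
    rw [smul_smul] at this
    norm_num at this
    exact this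
  rw [linearIndependent_option] at hli
  exact hli.2 h6

variable {ι : Type}

/-- Final step, with logarithms. -/
theorem base_case' (M : ℕ) (hM : 0 < M) (s : Finset ι) (J : ι → ℕ)
    (hJ : ∀ i ∈ s, 0 < J i ∧ J i ≤ M) (A : ι → QB) (β : QB) {κ : Type} [Fintype κ] (ρ : κ → ℝ)
    (hρ : ∀ k, 0 < ρ k) (hρa : ∀ k, IsAlgebraic ℚ (ρ k : ℂ)) (γ : κ → QB)
    (h : ∑ i ∈ s, (A i : ℂ) * S ((((Real.sqrt 10)⁻¹ : ℝ) : ℂ) ^ M) M (J i)
      = (β : ℂ) * Real.pi + ∑ k, (γ k : ℂ) * ((Real.log (ρ k) : ℝ) : ℂ)) :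
    β = 0 := by
  have hx : (((sQ)⁻¹ : QB) : ℂ) = (((Real.sqrt 10)⁻¹ : ℝ) : ℂ) := by
    change algebraMap QB ℂ ((sQ)⁻¹) = _
    rw [map_inv₀, Complex.ofReal_inv]
    rfl
  rw [expand M hM _ inv_sqrt_pos inv_sqrt_lt _ hx s J hJ A] at h
  have hxa : IsAlgebraic ℚ ((((Real.sqrt 10)⁻¹ : ℝ) : ℂ)) := by
    rw [← hx]; exact mem_algebraicClosure_iff.mp (sQ⁻¹ : QB).2
  have hb := coeff_zero ((Real.pi : ℂ) * Complex.I) (Sum.elim
      (fun t : Fin M => Complex.log (1 - zt M ^ (t : ℕ) * (((Real.sqrt 10)⁻¹ : ℝ) : ℂ)))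
      (fun k : κ => ((Real.log (ρ k) : ℝ) : ℂ)))
    (by rw [Complex.exp_pi_mul_I]; exact isAlgebraic_one.neg)
    (by
      rintro (t | k)
      · exact alg_one_sub M hM _ hxa inv_sqrt_pos inv_sqrt_lt (some t)
      · simp only [Sum.elim_inr]
        rw [← Complex.ofReal_exp, Real.exp_log (hρ k)]
        exact hρa k)
    (pi_not_mem M hM ρ) (β * iQ)
    (Sum.elim (fun t => cf M hM s J A sQ⁻¹ t) (fun k => -γ k))
    (by
      rw [Fintype.sum_sum_type, pi_eq]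
      simp only [Sum.elim_inl, Sum.elim_inr]
      rw [h]
      have h1 : ∑ k, ((-γ k : QB) : ℂ) * ((Real.log (ρ k) : ℝ) : ℂ)
          = -∑ k, (γ k : ℂ) * ((Real.log (ρ k) : ℝ) : ℂ) := by
        rw [← sum_neg_distrib]
        refine sum_congr rfl fun k _ => ?_
        have : ((-γ k : QB) : ℂ) = -(γ k : ℂ) := rfl
        rw [this]; ring
      rw [h1]; ring)
  have h2 : iQ ≠ 0 := by
    intro h0
    have : (iQ : ℂ) = 0 := by rw [h0]; rfl
    exact Complex.I_ne_zero this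
  exact (mul_eq_zero.mp hb).resolve_right h2

theorem averaged' (M : ℕ) (hM : 0 < M) (N : ℕ) (hN : 0 < N) (x : ℝ) (hx0 : 0 < x) (hx1 : x < 1)
    (hxN : x ^ N = 1 / 10) (s : Finset ι) (J : ι → ℕ) (hJ : ∀ i ∈ s, 0 < J i ∧ J i ≤ M)
    (A : ι → QB) (hA : ∀ i ∈ s, A i ∈ CMF) (α β : QB) (hβ : β ∈ CMF)
    {κ : Type} [Fintype κ] (ρ : κ → ℝ) (hρ : ∀ k, 0 < ρ k)
    (hρa : ∀ k, IsAlgebraic ℚ (ρ k : ℂ)) (γ : κ → QB)
    (h : ∑ i ∈ s, (A i : ℂ) * S ((x : ℂ) ^ M) M (J i)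
      = (α : ℂ) + (β : ℂ) * Real.pi + ∑ k, (γ k : ℂ) * ((Real.log (ρ k) : ℝ) : ℂ)) :
    ∃ (d : ℕ) (γ' : κ → QB), 0 < d ∧ N ∣ 2 * d ∧
      ∑ i ∈ s.filter (fun i => d ∣ J i), (A i : ℂ) * S ((x : ℂ) ^ M) M (J i)
        = (β : ℂ) * Real.pi + ∑ k, (γ' k : ℂ) * ((Real.log (ρ k) : ℝ) : ℂ) := by
  have hxC : (x : ℂ) ^ N = algebraMap ℚ ℂ (1 / 10) := by
    rw [← Complex.ofReal_pow, hxN]
    simp
  have hxa : IsAlgebraic ℚ (x : ℂ) := by
    apply IsAlgebraic.of_pow hN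
    rw [hxC]; exact isAlgebraic_algebraMap _
  obtain ⟨xQ, hxQ⟩ : ∃ xQ : QB, (xQ : ℂ) = x := ⟨mkQ x hxa, rfl⟩
  have hxQN : xQ ^ N = algebraMap ℚ QB (1 / 10) := by
    apply Subtype.ext
    change (xQ : ℂ) ^ N = algebraMap QB ℂ (algebraMap ℚ QB (1 / 10))
    rw [hxQ, hxC, ← IsScalarTower.algebraMap_apply ℚ QB ℂ]
  obtain ⟨d, hd, hNd, hshift⟩ := exists_shift N hN xQ hxQN x hx0 hxQ
  have hrel := baker_galois (Sum.elim (fam2 M x) (fun k : κ => ((Real.log (ρ k) : ℝ) : ℂ)))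
    (by
      rintro (t | k)
      · exact alg_one_sub M hM x hxa hx0 hx1 t
      · simp only [Sum.elim_inr]
        rw [← Complex.ofReal_exp, Real.exp_log (hρ k)]
        exact hρa k)
    (Sum.elim (fun i => i.elim (β * iQ) (fun t => cf M hM s J A xQ t)) (fun k => -γ k)) α (by
      rw [Fintype.sum_sum_type, Fintype.sum_option]
      simp only [Sum.elim_inl, Sum.elim_inr]
      change ((((β * iQ : QB)) : ℂ) * ((Real.pi : ℂ) * Complex.I) +
        ∑ t : Fin M, ((cf M hM s J A xQ t : QB) : ℂ) *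
          Complex.log (1 - zt M ^ (t : ℕ) * (x : ℂ))) +
        ∑ k, ((-γ k : QB) : ℂ) * ((Real.log (ρ k) : ℝ) : ℂ) = α
      have h1 : ∑ k, ((-γ k : QB) : ℂ) * ((Real.log (ρ k) : ℝ) : ℂ)
          = -∑ k, (γ k : ℂ) * ((Real.log (ρ k) : ℝ) : ℂ) := by
        rw [← sum_neg_distrib]
        refine sum_congr rfl fun k _ => ?_
        have : ((-γ k : QB) : ℂ) = -(γ k : ℂ) := rfl
        rw [this]; ring
      rw [h1, ← expand M hM x hx0 hx1 xQ hxQ s J hJ A, h, pi_eq]; ring)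
  have hk : ∀ k : ℕ, ∃ σ : QB ≃ₐ[ℚ] QB,
      ∑ t : Fin M, ((cf M hM s J A (ztQ d hd ^ k * xQ) t : QB) : ℂ) *
        Complex.log (1 - zt M ^ (t : ℕ) * (x : ℂ)) = (β : ℂ) * Real.pi
          + ∑ l, ((σ (γ l) : QB) : ℂ) * ((Real.log (ρ l) : ℝ) : ℂ) := by
    intro k
    obtain ⟨σ, hσ1, hσ2⟩ := hshift (ztQ d hd ^ k) (by
      rw [← pow_mul, mul_comm, pow_mul, ztQ_pow, one_pow])
    refine ⟨σ, ?_⟩
    have h1 := hrel.2 σ
    rw [Fintype.sum_sum_type, Fintype.sum_option] at h1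
    simp only [Sum.elim_inl, Sum.elim_inr] at h1
    change ((((σ (β * iQ) : QB)) : ℂ) * ((Real.pi : ℂ) * Complex.I) +
        ∑ t : Fin M, ((σ (cf M hM s J A xQ t) : QB) : ℂ) *
          Complex.log (1 - zt M ^ (t : ℕ) * (x : ℂ))) +
          ∑ l, ((σ (-γ l) : QB) : ℂ) * ((Real.log (ρ l) : ℝ) : ℂ) = 0 at h1
    rw [hσ1 _ (CMF.mul_mem hβ iQ_mem), pi_eq] at h1
    have h2 : ∀ t : Fin M, ((σ (cf M hM s J A xQ t) : QB) : ℂ) *
          Complex.log (1 - zt M ^ (t : ℕ) * (x : ℂ)) =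
        ((cf M hM s J A (ztQ d hd ^ k * xQ) t : QB) : ℂ) *
          Complex.log (1 - zt M ^ (t : ℕ) * (x : ℂ)) := by
      intro t
      rw [cf_map M hM s J A hA xQ t σ hσ1, hσ2]
    rw [Finset.sum_congr rfl (fun t _ => h2 t)] at h1
    have h3 : ∑ l, ((σ (-γ l) : QB) : ℂ) * ((Real.log (ρ l) : ℝ) : ℂ)
        = -∑ l, ((σ (γ l) : QB) : ℂ) * ((Real.log (ρ l) : ℝ) : ℂ) := by
      rw [← sum_neg_distrib]
      refine sum_congr rfl fun l _ => ?_
      have : ((σ (-γ l) : QB) : ℂ) = -((σ (γ l) : QB) : ℂ) := by rw [map_neg]; rfl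
      rw [this]; ring
    rw [h3] at h1
    linear_combination h1
  choose σ hσ using hk
  refine ⟨d, fun l => (d : QB)⁻¹ * ∑ k ∈ range d, σ k (γ l), hd, hNd, ?_⟩
  have hd0 : (d : ℂ) ≠ 0 := by exact_mod_cast hd.ne'
  have hsum : ∑ k ∈ range d, ∑ t : Fin M, ((cf M hM s J A (ztQ d hd ^ k * xQ) t : QB) : ℂ) *
      Complex.log (1 - zt M ^ (t : ℕ) * (x : ℂ)) = (d : ℂ) * ((β : ℂ) * Real.pi
        + ∑ l, (((d : QB)⁻¹ * ∑ k ∈ range d, σ k (γ l) : QB) : ℂ) *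
          ((Real.log (ρ l) : ℝ) : ℂ)) := by
    rw [Finset.sum_congr rfl (fun k _ => hσ k), sum_add_distrib, sum_const, card_range,
      nsmul_eq_mul, mul_add, mul_sum, sum_comm]
    congr 1
    refine sum_congr rfl fun l _ => ?_
    have h4 : (((d : QB)⁻¹ * ∑ k ∈ range d, σ k (γ l) : QB) : ℂ)
        = (d : ℂ)⁻¹ * ∑ k ∈ range d, ((σ k (γ l) : QB) : ℂ) := by
      have hcoe : ∀ z : QB, (z : ℂ) = algebraMap QB ℂ z := fun _ => rfl
      rw [hcoe, map_mul, map_inv₀, map_natCast, map_sum]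
      rfl
    rw [h4, ← sum_mul]
    field_simp
  rw [sum_comm] at hsum
  have h3 : ∀ t : Fin M, ∑ k ∈ range d, ((cf M hM s J A (ztQ d hd ^ k * xQ) t : QB) : ℂ) *
      Complex.log (1 - zt M ^ (t : ℕ) * (x : ℂ)) =
      (d : ℂ) * (((cf M hM (s.filter (fun i => d ∣ J i)) J A xQ t : QB) : ℂ) *
        Complex.log (1 - zt M ^ (t : ℕ) * (x : ℂ))) := by
    intro t
    rw [← sum_mul]
    have h4 : ∑ k ∈ range d, ((cf M hM s J A (ztQ d hd ^ k * xQ) t : QB) : ℂ)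
        = (d : ℂ) * ((cf M hM (s.filter (fun i => d ∣ J i)) J A xQ t : QB) : ℂ) := by
      have h5 := congrArg (algebraMap QB ℂ) (cf_average M hM s J A xQ t d hd)
      rw [map_sum, map_mul, map_natCast] at h5
      exact h5
    rw [h4]; ring
  rw [Finset.sum_congr rfl (fun t _ => h3 t), ← mul_sum] at hsum
  have h6 := mul_left_cancel₀ hd0 hsum
  rw [expand M hM x hx0 hx1 xQ hxQ (s.filter (fun i => d ∣ J i)) J
    (fun i hi => hJ i (Finset.mem_filter.mp hi).1) A]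
  exact h6

/-- The core theorem, with logarithms. -/
theorem core' (m n : ℕ) (hm : 0 < m) (hn : 0 < n) (s : Finset ι) (j : ι → ℕ)
    (hj : ∀ i ∈ s, 0 < j i ∧ j i ≤ n) (a : ι → QB) (ha : ∀ i ∈ s, a i ∈ CMF) (α β : QB)
    (hβ : β ∈ CMF) {κ : Type} [Fintype κ] (ρ : κ → ℝ) (hρ : ∀ k, 0 < ρ k)
    (hρa : ∀ k, IsAlgebraic ℚ (ρ k : ℂ)) (γ : κ → QB)
    (h : ∑ i ∈ s, (a i : ℂ) * S ((1 / 10 : ℂ) ^ m) n (j i)
      = (α : ℂ) + (β : ℂ) * Real.pi + ∑ k, (γ k : ℂ) * ((Real.log (ρ k) : ℝ) : ℂ)) :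
    β = 0 := by
  -- the real number x = 10 ^ (-1/(2n))
  obtain ⟨x, hx0, hxN⟩ : ∃ x : ℝ, 0 < x ∧ x ^ (2 * n) = 1 / 10 := by
    refine ⟨(1 / 10 : ℝ) ^ ((1 : ℝ) / ((2 * n : ℕ) : ℝ)), by positivity, ?_⟩
    rw [← Real.rpow_natCast, ← Real.rpow_mul (by norm_num)]
    rw [one_div_mul_cancel (by positivity), Real.rpow_one]
  have hx1 : x < 1 := by
    by_contra hcon
    push Not at hcon
    have := one_le_pow₀ (n := 2 * n) hcon
    rw [hxN] at this
    norm_num at this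
  set M := 2 * m * n with hM
  have hM0 : 0 < M := by positivity
  have hxM : (x : ℂ) ^ M = (1 / 10 : ℂ) ^ m := by
    have : M = (2 * n) * m := by rw [hM]; ring
    rw [this, pow_mul, ← Complex.ofReal_pow, hxN]
    push_cast; rfl
  have h1 : ∑ i ∈ s, (((2 * m : ℕ) : QB) * a i : QB) * S ((x : ℂ) ^ M) M (2 * m * j i)
      = (α : ℂ) + (β : ℂ) * Real.pi + ∑ k, (γ k : ℂ) * ((Real.log (ρ k) : ℝ) : ℂ) := by
    rw [← h, hxM]
    refine sum_congr rfl fun i _ => ?_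
    rw [S_scale _ (2 * m) n (j i) (by positivity)]
    change (algebraMap QB ℂ (((2 * m : ℕ) : QB) * a i)) * _ = _
    rw [map_mul, map_natCast]
    change ((2 * m : ℕ) : ℂ) * (a i : ℂ) * _ = _
    rw [hM]
    ring
  obtain ⟨d, γ', hd, hNd, h2⟩ := averaged' M hM0 (2 * n) (by positivity) x hx0 hx1 hxN s
    (fun i => 2 * m * j i) (fun i hi => ⟨by have := (hj i hi).1; positivity, by
      rw [hM]; exact Nat.mul_le_mul_left _ (hj i hi).2⟩)
    (fun i => ((2 * m : ℕ) : QB) * a i)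
    (fun i hi => CMF.mul_mem (natCast_mem CMF _) (ha i hi)) α β hβ ρ hρ hρa γ h1
  have hnd : n ∣ d := Nat.dvd_of_mul_dvd_mul_left (by norm_num : 0 < 2) hNd
  -- reduce to modulus 2 m
  have hxs : (((Real.sqrt 10)⁻¹ : ℝ) : ℂ) ^ (2 * m) = (1 / 10 : ℂ) ^ m := by
    rw [pow_mul, ← Complex.ofReal_pow, inv_pow, Real.sq_sqrt (by norm_num)]
    push_cast; norm_num
  refine base_case' (2 * m) (by positivity) (s.filter (fun i => d ∣ 2 * m * j i))
    (fun i => 2 * m * j i / n) ?_ (fun i => ((2 * m : ℕ) : QB) * a i * ((n : ℕ) : QB)⁻¹) β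
    ρ hρ hρa γ' ?_
  · intro i hi
    rw [mem_filter] at hi
    have h3 : n ∣ 2 * m * j i := hnd.trans hi.2
    have h4 := hj i hi.1
    constructor
    · exact Nat.div_pos (Nat.le_of_dvd (by have := h4.1; positivity) h3) hn
    · apply Nat.div_le_of_le_mul
      rw [mul_comm n]
      exact Nat.mul_le_mul_left _ h4.2
  · rw [← h2, hxs, hxM]
    refine sum_congr rfl fun i hi => ?_
    rw [mem_filter] at hi
    have h3 : n ∣ 2 * m * j i := hnd.trans hi.2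
    rw [S_scale _ n (2 * m) (2 * m * j i / n) hn, Nat.mul_div_cancel' h3, mul_comm n (2 * m), ← hM]
    change (algebraMap QB ℂ (((2 * m : ℕ) : QB) * a i * ((n : ℕ) : QB)⁻¹)) * _
      = (algebraMap QB ℂ (((2 * m : ℕ) : QB) * a i)) * _
    rw [map_mul _ _ (((n : ℕ) : QB)⁻¹), map_inv₀, map_natCast (algebraMap QB ℂ) n]
    have hn0 : (n : ℂ) ≠ 0 := by exact_mod_cast hn.ne'
    field_simp

end Pool.Agent.Helper72K9.BBP
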