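import Pool.Agent.Helper72K9.BBP.Core

open Finset Polynomial

namespace Pool.Agent.Helper72K9.BBP

/-- Partial fractions with simple poles. -/
theorem partial_fractions {K : Type*} [Field K] [CharZero K] (R : Finset ℚ) (P : K[X]) :
    ∃ (D : K[X]) (c : ℚ → K), ∀ x : K, (∀ r ∈ R, x ≠ (r : K)) →
      P.eval x / ∏ r ∈ R, (x - (r : K)) = D.eval x + ∑ r ∈ R, c r / (x - (r : K)) := by
  classical
  induction R using Finset.induction_on with
  | empty => exact ⟨P, 0, fun x _ => by simp⟩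
  | insert r0 R hr0 ih =>
    obtain ⟨D, c, hD⟩ := ih
    refine ⟨D /ₘ (X - C (r0 : K)), fun r => if r = r0 then
      D.eval (r0 : K) - ∑ r ∈ R, c r / ((r : K) - (r0 : K)) else c r / ((r : K) - (r0 : K)), ?_⟩
    intro x hx
    have hx0 : x - (r0 : K) ≠ 0 := sub_ne_zero.mpr (hx r0 (mem_insert_self _ _))
    have hxR : ∀ r ∈ R, x ≠ (r : K) := fun r hr => hx r (mem_insert_of_mem hr)
    have h1 := hD x hxR
    rw [prod_insert hr0, sum_insert hr0, mul_comm, ← div_div, h1]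
    have h2 : D.eval x = (D /ₘ (X - C (r0 : K))).eval x * (x - (r0 : K)) + D.eval (r0 : K) := by
      conv_lhs => rw [← modByMonic_add_div D (X - C (r0 : K))]
      rw [modByMonic_X_sub_C_eq_C_eval, eval_add, eval_mul, eval_C, eval_sub, eval_X, eval_C]
      ring
    have h3 : ∀ r ∈ R, c r / (x - (r : K)) / (x - (r0 : K))
        = c r / ((r : K) - (r0 : K)) / (x - (r : K))
          - c r / ((r : K) - (r0 : K)) / (x - (r0 : K)) := by
      intro r hr
      have h4 : x - (r : K) ≠ 0 := sub_ne_zero.mpr (hxR r hr)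
      have h5 : (r : K) - (r0 : K) ≠ 0 := by
        rw [sub_ne_zero]
        intro h
        have : r = r0 := by exact_mod_cast h
        exact hr0 (this ▸ hr)
      field_simp
      ring
    beta_reduce
    rw [if_pos rfl, add_div, sum_div, sum_congr rfl h3, sum_sub_distrib, h2]
    have h6 : ∑ r ∈ R, (if r = r0 then D.eval (r0 : K) - ∑ r ∈ R, c r / ((r : K) - (r0 : K))
        else c r / ((r : K) - (r0 : K))) / (x - (r : K))
        = ∑ r ∈ R, c r / ((r : K) - (r0 : K)) / (x - (r : K)) := by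
      refine sum_congr rfl fun r hr => ?_
      rw [if_neg]
      rintro rfl
      exact hr0 hr
    rw [h6, ← sum_div]
    field_simp
    ring

theorem coe_eq (q : QB) : (q : ℂ) = algebraMap QB ℂ q := rfl

/-- The power sums `∑ k ^ i w ^ k` are algebraic. -/
theorem pow_sum_mem (w : QB) (hw : ‖(w : ℂ)‖ < 1) (i : ℕ) :
    ∃ A : QB, ∑' k : ℕ, (k : ℂ) ^ i * (w : ℂ) ^ k = (A : ℂ) := by
  induction i using Nat.strong_induction_on with
  | _ i ih =>
    have hs : ∀ l : ℕ, Summable (fun k : ℕ => (k : ℂ) ^ l * (w : ℂ) ^ k) := fun l =>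
      summable_pow_mul_geometric_of_norm_lt_one l hw
    choose! A hA using ih
    have hw1 : (1 : ℂ) - (w : ℂ) ≠ 0 := by
      intro h
      have : (w : ℂ) = 1 := (sub_eq_zero.mp h).symm
      rw [this] at hw
      norm_num at hw
    have h1 : ∑' k : ℕ, (k : ℂ) ^ i * (w : ℂ) ^ k
        = (0 : ℂ) ^ i + (w : ℂ) * ∑' k : ℕ, ((k : ℂ) + 1) ^ i * (w : ℂ) ^ k := by
      rw [(hs i).tsum_eq_zero_add, ← tsum_mul_left]
      congr 1
      · simp
      · congr 1
        ext k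
        push_cast
        ring
    have h2 : ∑' k : ℕ, ((k : ℂ) + 1) ^ i * (w : ℂ) ^ k
        = ∑ l ∈ range (i + 1), (i.choose l : ℂ) * ∑' k : ℕ, (k : ℂ) ^ l * (w : ℂ) ^ k := by
      simp_rw [← tsum_mul_left]
      rw [← Summable.tsum_finsetSum (fun l _ => (hs l).mul_left _)]
      congr 1
      ext k
      rw [add_pow, sum_mul]
      refine sum_congr rfl fun l _ => ?_
      rw [one_pow]; ring
    rw [h2, sum_range_succ, Nat.choose_self, Nat.cast_one, one_mul] at h1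
    set T := ∑' k : ℕ, (k : ℂ) ^ i * (w : ℂ) ^ k with hT
    have h3 : ∑ l ∈ range i, (i.choose l : ℂ) * ∑' k : ℕ, (k : ℂ) ^ l * (w : ℂ) ^ k
        = ((∑ l ∈ range i, (i.choose l : QB) * A l : QB) : ℂ) := by
      change _ = algebraMap QB ℂ _
      rw [map_sum]
      refine sum_congr rfl fun l hl => ?_
      rw [hA l (mem_range.mp hl), map_mul, map_natCast]
      rfl
    refine ⟨(1 - w)⁻¹ * (0 ^ i + w * ∑ l ∈ range i, (i.choose l : QB) * A l), ?_⟩
    rw [coe_eq, map_mul, map_inv₀, map_sub, map_one, map_add, map_pow, map_zero, map_mul]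
    change T = ((1 : ℂ) - (w : ℂ))⁻¹ * ((0 : ℂ) ^ i + (w : ℂ) *
      ((∑ l ∈ range i, (i.choose l : QB) * A l : QB) : ℂ))
    rw [← h3]
    rw [eq_comm, inv_mul_eq_iff_eq_mul₀ hw1]
    linear_combination -h1

theorem poly_sum_mem (w : QB) (hw : ‖(w : ℂ)‖ < 1) (D : QB[X]) :
    (∃ A : QB, ∑' k : ℕ, ((D.eval (k : QB) : QB) : ℂ) * (w : ℂ) ^ k = (A : ℂ)) ∧
      Summable (fun k : ℕ => ((D.eval (k : QB) : QB) : ℂ) * (w : ℂ) ^ k) := by
  have hs : ∀ l : ℕ, Summable (fun k : ℕ => (k : ℂ) ^ l * (w : ℂ) ^ k) := fun l =>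
    summable_pow_mul_geometric_of_norm_lt_one l hw
  have h1 : ∀ k : ℕ, ((D.eval (k : QB) : QB) : ℂ) * (w : ℂ) ^ k
      = ∑ l ∈ range (D.natDegree + 1), ((D.coeff l : QB) : ℂ) * ((k : ℂ) ^ l * (w : ℂ) ^ k) := by
    intro k
    change algebraMap QB ℂ (D.eval (k : QB)) * _ = _
    rw [eval_eq_sum_range, map_sum, sum_mul]
    refine sum_congr rfl fun l _ => ?_
    rw [map_mul, map_pow, map_natCast]
    change (D.coeff l : ℂ) * _ * _ = _
    ring
  simp_rw [h1]
  constructor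
  · choose A hA using fun l => pow_sum_mem w hw l
    refine ⟨∑ l ∈ range (D.natDegree + 1), D.coeff l * A l, ?_⟩
    rw [Summable.tsum_finsetSum (fun l _ => (hs l).mul_left _)]
    change _ = algebraMap QB ℂ _
    rw [map_sum]
    refine sum_congr rfl fun l _ => ?_
    rw [tsum_mul_left, hA l, map_mul]
    rfl
  · exact summable_sum fun l _ => (hs l).mul_left _

/-- The series `∑ w ^ k / (k - r)`. -/
noncomputable def T (w : ℂ) (r : ℚ) : ℂ := ∑' k : ℕ, w ^ k / ((k : ℂ) - (r : ℂ))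

theorem summable_T (w : ℂ) (hw : ‖w‖ < 1) (r : ℚ) :
    Summable (fun k : ℕ => w ^ k / ((k : ℂ) - (r : ℂ))) := by
  have h1 : Summable (fun k : ℕ => ‖w‖ ^ k) := summable_geometric_of_lt_one (norm_nonneg _) hw
  obtain ⟨K, hK⟩ := exists_nat_gt ((|r| : ℚ) + 1)
  apply Summable.of_norm_bounded_eventually_nat h1
  filter_upwards [Filter.eventually_ge_atTop K] with k hk
  rw [norm_div, norm_pow]
  apply div_le_self (by positivity)
  have h2 : ((k : ℂ) - (r : ℂ)) = (((k : ℝ) - (r : ℝ) : ℝ) : ℂ) := by push_cast; rfl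
  rw [h2, Complex.norm_real, Real.norm_eq_abs]
  have h3 : (|r| : ℚ) + 1 < (k : ℚ) := lt_of_lt_of_le hK (by exact_mod_cast hk)
  have h4 : (|(r : ℝ)|) + 1 < (k : ℝ) := by exact_mod_cast h3
  have h5 := le_abs_self (r : ℝ)
  have h6 := le_abs_self ((k : ℝ) - (r : ℝ))
  linarith

theorem T_succ (w : ℂ) (hw : ‖w‖ < 1) (r : ℚ) : T w r = -1 / (r : ℂ) + w * T w (r - 1) := by
  rw [T, (summable_T w hw r).tsum_eq_zero_add, T, ← tsum_mul_left]
  congr 1
  · simp [neg_div, div_neg]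
  · congr 1
    ext k
    push_cast
    have : (k : ℂ) + 1 - (r : ℂ) = (k : ℂ) - ((r : ℂ) - 1) := by ring
    rw [this]
    ring

theorem T_shift (w : ℚ) (hw0 : w ≠ 0) (hw : ‖(w : ℂ)‖ < 1) (r : ℚ) (q : ℤ) :
    ∃ c0 c1 : ℚ, T (w : ℂ) (r + q) = (c0 : ℂ) + (c1 : ℂ) * T (w : ℂ) r := by
  have hwC : (w : ℂ) ≠ 0 := by exact_mod_cast hw0
  induction q using Int.induction_on with
  | zero => exact ⟨0, 1, by simp⟩
  | succ i ih =>
    obtain ⟨c0, c1, h⟩ := ih
    refine ⟨-1 / (r + ((i : ℤ) + 1 : ℤ)) + w * c0, w * c1, ?_⟩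
    rw [T_succ (w : ℂ) hw]
    have : r + (((i : ℤ) + 1 : ℤ) : ℚ) - 1 = r + ((i : ℤ) : ℚ) := by push_cast; ring
    rw [this, h]
    push_cast
    ring
  | pred i ih =>
    obtain ⟨c0, c1, h⟩ := ih
    have h1 := T_succ (w : ℂ) hw (r + ((-(i : ℤ) : ℤ) : ℚ))
    have : r + ((-(i : ℤ) : ℤ) : ℚ) - 1 = r + ((-(i : ℤ) - 1 : ℤ) : ℚ) := by push_cast; ring
    rw [this, h] at h1
    refine ⟨(c0 + 1 / (r + ((-(i : ℤ) : ℤ) : ℚ))) / w, c1 / w, ?_⟩
    have h2 : (w : ℂ) * T (w : ℂ) (r + ((-(i : ℤ) - 1 : ℤ) : ℚ))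
        = (c0 : ℂ) + (c1 : ℂ) * T (w : ℂ) r + 1 / (((r + ((-(i : ℤ) : ℤ) : ℚ) : ℚ)) : ℂ) := by
      rw [neg_div] at h1
      linear_combination -h1
    have h3 : T (w : ℂ) (r + ((-(i : ℤ) - 1 : ℤ) : ℚ))
        = ((c0 : ℂ) + (c1 : ℂ) * T (w : ℂ) r + 1 / (((r + ((-(i : ℤ) : ℤ) : ℚ) : ℚ)) : ℂ)) / w := by
      rw [← h2]; field_simp
    rw [h3]
    push_cast
    ring

theorem summable_S (w : ℂ) (hw : ‖w‖ < 1) (n j : ℕ) :
    Summable (fun k : ℕ => w ^ k / ((n * k + j : ℕ) : ℂ)) := by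
  have h1 : Summable (fun k : ℕ => ‖w‖ ^ k) := summable_geometric_of_lt_one (norm_nonneg _) hw
  apply Summable.of_norm_bounded h1
  intro k
  rw [norm_div, norm_pow, Complex.norm_natCast]
  rcases Nat.eq_zero_or_pos (n * k + j) with h | h
  · rw [h]; simp
  · apply div_le_self (by positivity)
    exact_mod_cast h

/-- Splitting into even and odd terms. -/
theorem S_split (w : ℂ) (hw : ‖w‖ < 1) (n j : ℕ) :
    S w n j = S (w ^ 2) (2 * n) j + w * S (w ^ 2) (2 * n) (n + j) := by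
  have hs := summable_S w hw n j
  have he : Function.Injective (fun k : ℕ => 2 * k) := fun a b h => by simp only at h; omega
  have ho : Function.Injective (fun k : ℕ => 2 * k + 1) := fun a b h => by simp only at h; omega
  obtain ⟨f, hf⟩ : ∃ f : ℕ → ℂ, f = fun k : ℕ => w ^ k / ((n * k + j : ℕ) : ℂ) := ⟨_, rfl⟩
  have hsf : Summable f := by rw [hf]; exact hs
  have hse : Summable (fun k => f (2 * k)) := hsf.comp_injective he
  have hso : Summable (fun k => f (2 * k + 1)) := hsf.comp_injective ho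
  have key := tsum_even_add_odd hse hso
  have h1 : S w n j = ∑' k, f k := by rw [hf, S]
  have h2 : ∑' k, f (2 * k) = S (w ^ 2) (2 * n) j := by
    rw [S]
    refine tsum_congr fun k => ?_
    have h3 : n * (2 * k) + j = 2 * n * k + j := by ring
    simp only [hf]
    rw [h3, pow_mul]
  have h3 : ∑' k, f (2 * k + 1) = w * S (w ^ 2) (2 * n) (n + j) := by
    rw [S, ← tsum_mul_left]
    refine tsum_congr fun k => ?_
    have h4 : n * (2 * k + 1) + j = 2 * n * k + (n + j) := by ring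
    simp only [hf]
    rw [h4, pow_succ, pow_mul]
    ring
  rw [h1, ← key, h2, h3]

/-- The relation between the two normalisations. -/
theorem T_eq_S (w : ℂ) (n j : ℕ) (hn : 0 < n) :
    T w (-(j : ℚ) / n) = n * S w n j := by
  rw [T, S, ← tsum_mul_left]
  congr 1
  ext k
  have hn0 : (n : ℂ) ≠ 0 := by exact_mod_cast hn.ne'
  have h1 : ((k : ℂ) - ((-(j : ℚ) / n : ℚ) : ℂ)) = ((n * k + j : ℕ) : ℂ) / n := by
    push_cast
    field_simp
    ring
  rw [h1, div_div_eq_mul_div]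
  ring

end Pool.Agent.Helper72K9.BBP
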