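import Mathlib

open Polynomial IntermediateField

namespace Pool.Agent.Helper72K9.BBP

/-- The field of algebraic numbers inside `ℂ`. -/
abbrev QB : Type := algebraicClosure ℚ ℂ

noncomputable instance : IsAlgClosure ℚ QB := algebraicClosure.isAlgClosure ℚ ℂ

noncomputable instance : IsAlgClosed QB := (algebraicClosure.isAlgClosure ℚ ℂ).isAlgClosed

instance : Algebra.IsAlgebraic ℚ QB := (algebraicClosure.isAlgClosure ℚ ℂ).isAlgebraic

instance : Normal ℚ QB := IsAlgClosure.normal ℚ QB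

/-- Complex conjugation on the algebraic numbers. -/
noncomputable def tau : QB ≃ₐ[ℚ] QB :=
  AlgEquiv.restrictNormal (Complex.conjAe.restrictScalars ℚ) QB

theorem coe_tau (z : QB) : ((tau z : QB) : ℂ) = (starRingEnd ℂ) (z : ℂ) :=
  AlgEquiv.restrictNormal_commutes (Complex.conjAe.restrictScalars ℚ) QB z

/-- The algebraic numbers on which complex conjugation commutes with all automorphisms
(the compositum of all CM fields). -/
noncomputable def CMF : IntermediateField ℚ QB where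
  carrier := {z | ∀ σ : QB ≃ₐ[ℚ] QB, σ (tau z) = tau (σ z)}
  mul_mem' := by
    intro a b ha hb σ
    rw [map_mul, map_mul, ha σ, hb σ, map_mul, map_mul]
  add_mem' := by
    intro a b ha hb σ
    rw [map_add, map_add, ha σ, hb σ, map_add, map_add]
  algebraMap_mem' := by
    intro r σ
    rw [AlgEquiv.commutes, AlgEquiv.commutes, AlgEquiv.commutes]
  inv_mem' := by
    intro a ha σ
    rw [map_inv₀, map_inv₀, ha σ, map_inv₀, map_inv₀]

theorem mem_CMF (z : QB) : z ∈ CMF ↔ ∀ σ : QB ≃ₐ[ℚ] QB, σ (tau z) = tau (σ z) := Iff.rfl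

theorem root_mem_CMF (ξ : QB) (k : ℕ) (hk : 0 < k) (h : ξ ^ k = 1) : ξ ∈ CMF := by
  have key : ∀ η : QB, η ^ k = 1 → tau η = η⁻¹ := by
    intro η hη
    have h1 : ((η : ℂ)) ^ k = 1 := by
      have := congrArg (fun x : QB => (x : ℂ)) hη
      simpa using this
    have h2 : ‖(η : ℂ)‖ = 1 := Complex.norm_eq_one_of_pow_eq_one h1 hk.ne'
    apply Subtype.ext
    rw [coe_tau]
    have h3 : ((η⁻¹ : QB) : ℂ) = (η : ℂ)⁻¹ := by simp
    rw [h3, Complex.inv_def, Complex.normSq_eq_norm_sq, h2]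
    simp
  rw [mem_CMF]
  intro σ
  have hσ : (σ ξ) ^ k = 1 := by rw [← map_pow, h, map_one]
  rw [key ξ h, key (σ ξ) hσ, map_inv₀]

theorem prod_div_mem (x : QB) (s : Multiset QB) (hs : ∀ ρ ∈ s, ρ / x ∈ CMF) :
    s.prod / x ^ (Multiset.card s) ∈ CMF := by
  induction s using Multiset.induction_on with
  | empty =>
    rw [Multiset.prod_zero, Multiset.card_zero, pow_zero, div_one]
    exact CMF.one_mem
  | cons a s ih =>
    rw [Multiset.prod_cons, Multiset.card_cons, pow_succ']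
    have h1 := ih (fun ρ hρ => hs ρ (Multiset.mem_cons_of_mem hρ))
    have h2 := hs a (Multiset.mem_cons_self a s)
    rw [mul_div_mul_comm]
    exact CMF.mul_mem h2 h1

theorem neg_one_pow_mem (c p : QB) (k : ℕ) (h : c = (-1) ^ k * p) (hc : c ∈ CMF) : p ∈ CMF := by
  have hm1 : (-1 : QB) ∈ CMF := CMF.neg_mem CMF.one_mem
  have h2 : p = (-1) ^ k * c := by
    rw [h, ← mul_assoc, ← mul_pow]; simp
  rw [h2]
  exact CMF.mul_mem (CMF.pow_mem hm1 k) hc

/-- The power of `x` equal (up to a root of unity) to the constant coefficient of its minimal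
polynomial lies in the base field. -/
theorem pow_mem (N : ℕ) (hN : 0 < N) (q : ℚ) (x : QB) (hx0 : x ≠ 0)
    (hx : x ^ N = algebraMap ℚ QB q) :
    x ^ (minpoly CMF x).natDegree ∈ CMF := by
  have hint : IsIntegral CMF x := Algebra.IsIntegral.isIntegral x
  have hPm : (minpoly CMF x).Monic := minpoly.monic hint
  have hq : algebraMap CMF QB (algebraMap ℚ CMF q) = algebraMap ℚ QB q :=
    (IsScalarTower.algebraMap_apply ℚ CMF QB q).symm
  have hdvd : minpoly CMF x ∣ X ^ N - C (algebraMap ℚ CMF q) := by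
    apply minpoly.dvd
    rw [map_sub, map_pow, aeval_X, aeval_C, hx, hq, sub_self]
  have hrootN : ∀ ρ : QB, aeval ρ (minpoly CMF x) = 0 → ρ ^ N = x ^ N := by
    intro ρ hρ
    obtain ⟨g, hg⟩ := hdvd
    have h2 : aeval ρ (X ^ N - C (algebraMap ℚ CMF q)) = 0 := by
      rw [hg, map_mul, hρ, zero_mul]
    rw [map_sub, map_pow, aeval_X, aeval_C, hq, sub_eq_zero] at h2
    rw [h2, hx]
  set f := (minpoly CMF x).map (algebraMap CMF QB) with hf
  have hfm : f.Monic := hPm.map _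
  have hsp : f.Splits := IsAlgClosed.splits _
  have haev : ∀ ρ ∈ f.roots, aeval ρ (minpoly CMF x) = 0 := by
    intro ρ hρ
    have h1 : f.IsRoot ρ := isRoot_of_mem_roots hρ
    rw [IsRoot.def, hf, eval_map_algebraMap] at h1
    exact h1
  have hroot : ∀ ρ ∈ f.roots, ρ / x ∈ CMF := by
    intro ρ hρ
    refine root_mem_CMF _ N hN ?_
    rw [div_pow, hrootN ρ (haev ρ hρ), div_self (pow_ne_zero _ hx0)]
  have hcoeff := hsp.coeff_zero_eq_prod_roots_of_monic hfm
  have hdeg : f.natDegree = (minpoly CMF x).natDegree := hPm.natDegree_map _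
  have hcard : Multiset.card f.roots = (minpoly CMF x).natDegree := by
    rw [← hsp.natDegree_eq_card_roots, hdeg]
  have hc0 : f.coeff 0 ∈ CMF := by
    rw [hf, coeff_map]; exact ((minpoly CMF x).coeff 0).2
  have hprod := prod_div_mem x f.roots hroot
  rw [hcard] at hprod
  have hprod0 : f.roots.prod ≠ 0 := by
    intro h0
    rw [Multiset.prod_eq_zero_iff] at h0
    have h1 := hrootN 0 (haev 0 h0)
    rw [zero_pow hN.ne'] at h1
    exact pow_ne_zero N hx0 h1.symm
  have h1 : f.roots.prod ∈ CMF := neg_one_pow_mem _ _ _ hcoeff hc0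
  have h2 : x ^ (minpoly CMF x).natDegree =
      f.roots.prod * (f.roots.prod / x ^ (minpoly CMF x).natDegree)⁻¹ := by
    rw [inv_div, mul_div_cancel₀ _ hprod0]
  rw [h2]
  exact CMF.mul_mem h1 (CMF.inv_mem hprod)

/-- A real element of `CMF` one of whose powers is the same power of a rational number. -/
theorem sq_mem_bot (N : ℕ) (hN : 0 < N) (y : QB) (hy : y ∈ CMF) (r : ℝ) (hr : 0 ≤ r)
    (hyr : (y : ℂ) = r) (q : ℚ) (hq : y ^ N = algebraMap ℚ QB q) (hq0 : 0 ≤ q) :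
    y * y ∈ (⊥ : IntermediateField ℚ QB) := by
  apply (InfiniteGalois.mem_bot_iff_fixed _).mpr
  intro σ
  have h1 : tau y = y := by
    apply Subtype.ext
    rw [coe_tau, hyr, Complex.conj_ofReal]
  have h2 : tau (σ y) = σ y := by
    rw [← (mem_CMF _).mp hy σ, h1]
  have h3 : (starRingEnd ℂ) ((σ y : QB) : ℂ) = ((σ y : QB) : ℂ) := by
    rw [← coe_tau, h2]
  obtain ⟨w, hw⟩ := Complex.conj_eq_iff_real.mp h3
  have h4 : (σ y) ^ N = algebraMap ℚ QB q := by
    rw [← map_pow, hq, AlgEquiv.commutes]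
  have hcoe : ((algebraMap ℚ QB q : QB) : ℂ) = ((q : ℝ) : ℂ) := by simp
  have h5 : w ^ N = q := by
    have h6 : ((σ y : QB) : ℂ) ^ N = ((algebraMap ℚ QB q : QB) : ℂ) := by
      rw [← h4]; rfl
    rw [hw, hcoe] at h6
    exact_mod_cast h6
  have h5' : r ^ N = q := by
    have h6 : (y : ℂ) ^ N = ((algebraMap ℚ QB q : QB) : ℂ) := by
      rw [← hq]; rfl
    rw [hyr, hcoe] at h6
    exact_mod_cast h6
  have h6 : |w| = r := by
    have h7 : |w| ^ N = r ^ N := by
      rw [← abs_pow, h5, h5', abs_of_nonneg (by exact_mod_cast hq0)]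
    exact (pow_left_inj₀ (abs_nonneg w) hr hN.ne').mp h7
  have h8 : w * w = r * r := by rw [← abs_mul_abs_self, h6]
  apply Subtype.ext
  rw [map_mul]
  have h9 : ((σ y * σ y : QB) : ℂ) = ((σ y : QB) : ℂ) * ((σ y : QB) : ℂ) := rfl
  have h10 : ((y * y : QB) : ℂ) = (y : ℂ) * (y : ℂ) := rfl
  rw [h9, h10, hw, hyr, ← Complex.ofReal_mul, h8, Complex.ofReal_mul]

theorem dvd_two_mul (N d : ℕ) (q : ℚ) (hq0 : q ≠ 0) (hqN : q ^ N = (1 / 10 : ℚ) ^ (2 * d)) :
    N ∣ 2 * d := by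
  have : Fact (Nat.Prime 2) := ⟨Nat.prime_two⟩
  have h1 := congrArg (padicValRat 2) hqN
  rw [padicValRat.pow, padicValRat.pow] at h1
  have h2 : padicValRat 2 (1 / 10 : ℚ) = -1 := by
    rw [one_div, padicValRat.inv]
    have : (10 : ℚ) = ((10 : ℕ) : ℚ) := by norm_num
    rw [this, padicValRat.of_nat]
    have h3 : padicValNat 2 10 = 1 := by
      have : (10 : ℕ) = 2 * 5 := by norm_num
      rw [this, padicValNat.mul (by norm_num) (by norm_num), padicValNat.self (by norm_num),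
        padicValNat.eq_zero_of_not_dvd (by norm_num)]
    rw [h3]; norm_num
  rw [h2] at h1
  have h3 : (N : ℤ) ∣ ((2 * d : ℕ) : ℤ) := ⟨-padicValRat 2 q, by push_cast at h1 ⊢; linarith⟩
  exact_mod_cast h3

theorem exists_shift (N : ℕ) (hN : 0 < N) (x : QB) (hx : x ^ N = algebraMap ℚ QB (1 / 10)) (r : ℝ)
    (hr : 0 < r) (hxr : (x : ℂ) = r) :
    ∃ d : ℕ, 0 < d ∧ N ∣ 2 * d ∧ ∀ ξ : QB, ξ ^ d = 1 →
      ∃ σ : QB ≃ₐ[ℚ] QB, (∀ z ∈ CMF, σ z = z) ∧ σ x = ξ * x := by
  have hint : IsIntegral CMF x := Algebra.IsIntegral.isIntegral x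
  have hx0 : x ≠ 0 := by
    intro h0
    have : (x : ℂ) = 0 := by rw [h0]; rfl
    rw [hxr] at this
    exact hr.ne' (by exact_mod_cast this)
  obtain ⟨d, hd⟩ : ∃ d, d = (minpoly CMF x).natDegree := ⟨_, rfl⟩
  have hd0 : 0 < d := hd ▸ minpoly.natDegree_pos hint
  have hPm : (minpoly CMF x).Monic := minpoly.monic hint
  have hyC : x ^ d ∈ CMF := hd ▸ pow_mem N hN _ x hx0 hx
  have hyr : ((x ^ d : QB) : ℂ) = ((r ^ d : ℝ) : ℂ) := by
    have : ((x ^ d : QB) : ℂ) = (x : ℂ) ^ d := rfl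
    rw [this, hxr, Complex.ofReal_pow]
  have hyN : (x ^ d) ^ N = algebraMap ℚ QB ((1 / 10) ^ d) := by
    rw [← pow_mul, mul_comm, pow_mul, hx, map_pow]
  have hbot := sq_mem_bot N hN (x ^ d) hyC (r ^ d) (by positivity) hyr _ hyN (by positivity)
  rw [IntermediateField.mem_bot] at hbot
  obtain ⟨q, hq⟩ := hbot
  have hx2 : algebraMap ℚ QB q = x ^ (2 * d) := by rw [hq]; ring
  have hqN : q ^ N = (1 / 10 : ℚ) ^ (2 * d) := by
    apply (algebraMap ℚ QB).injective
    rw [map_pow, hx2, map_pow, ← hx, ← pow_mul, ← pow_mul, mul_comm]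
  have hq0 : q ≠ 0 := by
    rintro rfl
    rw [map_zero] at hx2
    exact pow_ne_zero _ hx0 hx2.symm
  refine ⟨d, hd0, dvd_two_mul N d q hq0 hqN, ?_⟩
  intro ξ hξ
  have hPeq : minpoly CMF x = X ^ d - C (⟨x ^ d, hyC⟩ : CMF) := by
    symm
    apply Polynomial.eq_of_monic_of_dvd_of_natDegree_le hPm
    · exact monic_X_pow_sub_C _ hd0.ne'
    · apply minpoly.dvd
      rw [map_sub, map_pow, aeval_X, aeval_C]
      exact sub_self _
    · rw [natDegree_X_pow_sub_C, ← hd]
  have halg : IsAlgebraic CMF x := hint.isAlgebraic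
  have hev : aeval (ξ * x) (minpoly CMF x) = 0 := by
    rw [hPeq, map_sub, map_pow, aeval_X, aeval_C, mul_pow, hξ, one_mul]
    exact sub_self _
  obtain ⟨σ, hσ⟩ := minpoly.exists_algEquiv_of_root' halg hev
  refine ⟨σ.restrictScalars ℚ, ?_, hσ⟩
  intro z hz
  exact σ.commutes (⟨z, hz⟩ : CMF)

end Pool.Agent.Helper72K9.BBP
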