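import Pool.Agent.Helper72K9.BBP.Prime

open Polynomial

namespace Pool.Agent.Helper72K9.BBP

variable {Ω : Type*} [Field Ω] [Algebra ℚ Ω] [Algebra.IsAlgebraic ℚ Ω]

theorem indep_core (S : Finset (integralClosure ℤ Ω)) (hS : ∀ ζ ∈ S, ∃ n : ℕ, 0 < n ∧ ζ ^ n = 1)
    (a b : integralClosure ℤ Ω → ℕ) (hab : ∀ ζ ∈ S, a ζ = 0 ∨ b ζ = 0)
    (u : integralClosure ℤ Ω) (k1 k2 : ℕ) (s : integralClosure ℤ Ω) (hs : s ^ 2 = 10)
    (h : u * (∏ ζ ∈ S, (s - ζ) ^ a ζ) * s ^ k1 = (∏ ζ ∈ S, (s - ζ) ^ b ζ) * s ^ k2)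
    (ζ1 : integralClosure ℤ Ω) (h1S : ζ1 ∈ S) (h1 : a ζ1 ≠ 0)
    (hmax : ∀ ζ ∈ S, b ζ ≠ 0 → orderOf (ζ ^ 2) ≤ orderOf (ζ1 ^ 2)) : False := by
  obtain ⟨n1, hn1, hζ1⟩ := hS ζ1 h1S
  have hfin1 : IsOfFinOrder (ζ1 ^ 2) := by
    rw [isOfFinOrder_iff_pow_eq_one]
    exact ⟨n1, hn1, by rw [← pow_mul, mul_comm, pow_mul, hζ1, one_pow]⟩
  have he0 : 0 < orderOf (ζ1 ^ 2) := orderOf_pos_iff.mpr hfin1
  obtain ⟨P, hP, hPa, p, hp, hpP, hpe⟩ := exists_prime s ζ1 hs _ he0 rfl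
  have hζ1P : ζ1 ∉ P := by
    intro hmem
    have : (1 : integralClosure ℤ Ω) ∈ P := by
      rw [← hζ1]; exact Ideal.pow_mem_of_mem P hmem n1 hn1
    exact hP.ne_top ((Ideal.eq_top_iff_one P).mpr this)
  have hsP : s ∉ P := by
    intro hmem
    apply hζ1P
    have : ζ1 = s - (s - ζ1) := by ring
    rw [this]; exact P.sub_mem hmem hPa
  have hLHS : u * (∏ ζ ∈ S, (s - ζ) ^ a ζ) * s ^ k1 ∈ P := by
    apply P.mul_mem_right
    apply P.mul_mem_left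
    refine Ideal.mem_of_dvd P (Finset.dvd_prod_of_mem (fun ζ => (s - ζ) ^ a ζ) h1S) ?_
    exact Ideal.pow_mem_of_mem P hPa _ (Nat.pos_of_ne_zero h1)
  rw [h] at hLHS
  have hprod : (∏ ζ ∈ S, (s - ζ) ^ b ζ) ∈ P := by
    rcases hP.mem_or_mem hLHS with h2 | h2
    · exact h2
    · exact absurd (hP.mem_of_pow_mem _ h2) hsP
  rw [hP.prod_mem_iff] at hprod
  obtain ⟨ζ2, h2S, h2⟩ := hprod
  have hb2 : b ζ2 ≠ 0 := by
    intro h0
    rw [h0, pow_zero] at h2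
    exact hP.ne_top ((Ideal.eq_top_iff_one P).mpr h2)
  have h2P : s - ζ2 ∈ P := hP.mem_of_pow_mem _ h2
  have hne : ζ2 ≠ ζ1 := by
    rintro rfl
    rcases hab ζ2 h2S with h3 | h3
    · exact h1 h3
    · exact hb2 h3
  obtain ⟨n2, hn2, hζ2⟩ := hS ζ2 h2S
  set η := ζ2 * ζ1 ^ (n1 - 1) with hη
  have hηζ : η * ζ1 = ζ2 := by
    rw [hη, mul_assoc, ← pow_succ, Nat.sub_add_cancel hn1, hζ1, mul_one]
  have hη1 : η ≠ 1 := by
    intro h3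
    rw [h3, one_mul] at hηζ
    exact hne hηζ.symm
  have hηP : η - 1 ∈ P := by
    have h3 : ζ1 * (η - 1) ∈ P := by
      have : ζ1 * (η - 1) = (s - ζ1) - (s - ζ2) := by rw [mul_sub, mul_comm, hηζ]; ring
      rw [this]; exact P.sub_mem hPa h2P
    exact (hP.mem_or_mem h3).resolve_left hζ1P
  have hηpow : η ^ (n1 * n2) = 1 := by
    rw [hη, mul_pow, mul_comm n1 n2, pow_mul ζ2, hζ2, one_pow, one_mul, mul_comm n2 n1, pow_mul,
      ← pow_mul ζ1, mul_comm (n1 - 1) n1, pow_mul, hζ1, one_pow, one_pow]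
  have hηfin : IsOfFinOrder η := isOfFinOrder_iff_pow_eq_one.mpr ⟨n1 * n2, Nat.mul_pos hn1 hn2, hηpow⟩
  have hη0 : 0 < orderOf η := orderOf_pos_iff.mpr hηfin
  have hprimes : ∀ q : ℕ, q.Prime → q ∣ orderOf η → q = p := by
    rintro q hq ⟨f, hf⟩
    have hprim : IsPrimitiveRoot (η ^ f) q :=
      (IsPrimitiveRoot.orderOf η).pow hη0 (by rw [hf, mul_comm])
    refine prime_eq P p q hp hq hpP _ hprim ?_
    refine Ideal.mem_of_dvd P ?_ hηP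
    have := sub_dvd_pow_sub_pow η 1 f
    rwa [one_pow] at this
  have hη2 : η ^ 2 ≠ 1 := by
    intro h3
    have h4 : orderOf η = 2 := orderOf_eq_prime h3 hη1
    have h5 : 2 = p := hprimes 2 Nat.prime_two (by rw [h4])
    apply hsP
    have h6 : s ^ 2 ∈ P := by
      rw [hs]
      have : (10 : integralClosure ℤ Ω) = ((2 : ℕ) : integralClosure ℤ Ω) * 5 := by push_cast; norm_num
      rw [this, h5]
      exact P.mul_mem_right _ hpP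
    exact hP.mem_of_pow_mem _ h6
  have hη2ord : 1 < orderOf (η ^ 2) := by
    have h3 : 0 < orderOf (η ^ 2) := orderOf_pos_iff.mpr hηfin.pow
    have h4 : orderOf (η ^ 2) ≠ 1 := by rwa [Ne, orderOf_eq_one_iff]
    omega
  have hcop : Nat.Coprime (orderOf (ζ1 ^ 2)) (orderOf (η ^ 2)) := by
    by_contra hnc
    obtain ⟨q, hq, hq1, hq2⟩ := Nat.Prime.not_coprime_iff_dvd.mp hnc
    have : q = p := hprimes q hq (hq2.trans (orderOf_pow_dvd 2))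
    rw [this] at hq1
    exact hpe hq1
  have hord : orderOf (ζ2 ^ 2) = orderOf (ζ1 ^ 2) * orderOf (η ^ 2) := by
    rw [← hηζ, mul_pow, mul_comm (η ^ 2)]
    exact (Commute.all _ _).orderOf_mul_eq_mul_orderOf_of_coprime hcop
  have := hmax ζ2 h2S hb2
  rw [hord] at this
  nlinarith

/-- Multiplicative independence of the numbers `√10 - ζ`, `ζ` a root of unity, and `√10`,
modulo `±1`. -/
theorem indep (S : Finset (integralClosure ℤ Ω)) (hS : ∀ ζ ∈ S, ∃ n : ℕ, 0 < n ∧ ζ ^ n = 1)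
    (s : integralClosure ℤ Ω) (hs : s ^ 2 = 10) (m : integralClosure ℤ Ω → ℤ) (k : ℤ)
    (ε : integralClosure ℤ Ω) (hε : ε * ε = 1)
    (h : ∏ ζ ∈ S, ((s : Ω) - (ζ : Ω)) ^ m ζ = (ε : Ω) * (s : Ω) ^ k) :
    ∀ ζ ∈ S, m ζ = 0 := by
  by_contra hcon
  push Not at hcon
  have hsΩ : (s : Ω) ^ 2 = 10 := by
    have h1 : ((s ^ 2 : integralClosure ℤ Ω) : Ω) = ((10 : integralClosure ℤ Ω) : Ω) := by rw [hs]
    have h2 : ((10 : integralClosure ℤ Ω) : Ω) = 10 := map_ofNat (integralClosure ℤ Ω).val 10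
    rw [h2] at h1
    exact h1
  have hchar : CharZero Ω := algebraRat.charZero Ω
  have hs0 : (s : Ω) ≠ 0 := by
    intro h0
    rw [h0] at hsΩ
    norm_num at hsΩ
  have hne : ∀ ζ ∈ S, (s : Ω) - (ζ : Ω) ≠ 0 := by
    intro ζ hζ h0
    obtain ⟨n, hn, hζn⟩ := hS ζ hζ
    have h1 : (s : Ω) = ζ := sub_eq_zero.mp h0
    have h2 : (ζ : Ω) ^ n = 1 := by
      have := congrArg (fun x : integralClosure ℤ Ω => (x : Ω)) hζn
      simpa using this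
    have h3 : (s : Ω) ^ (2 * n) = 1 := by rw [h1, mul_comm, pow_mul, h2, one_pow]
    rw [pow_mul, hsΩ] at h3
    have h4 : ((10 ^ n : ℕ) : Ω) = ((1 : ℕ) : Ω) := by push_cast; exact h3
    have h5 : 10 ^ n = 1 := by exact_mod_cast h4
    have h6 : 10 ^ 1 ≤ 10 ^ n := Nat.pow_le_pow_right (by norm_num) hn
    omega
  -- natural number form
  have key : (ε : Ω) * (∏ ζ ∈ S, ((s : Ω) - (ζ : Ω)) ^ (-m ζ).toNat) * (s : Ω) ^ k.toNat
      = (∏ ζ ∈ S, ((s : Ω) - (ζ : Ω)) ^ (m ζ).toNat) * (s : Ω) ^ (-k).toNat := by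
    have h1 : ∀ ζ ∈ S, ((s : Ω) - (ζ : Ω)) ^ (m ζ).toNat
        = ((s : Ω) - (ζ : Ω)) ^ m ζ * ((s : Ω) - (ζ : Ω)) ^ (-m ζ).toNat := by
      intro ζ hζ
      rw [← zpow_natCast, ← zpow_natCast, ← zpow_add₀ (hne ζ hζ)]
      congr 1
      omega
    rw [Finset.prod_congr rfl h1, Finset.prod_mul_distrib, h]
    have h2 : (s : Ω) ^ k.toNat = (s : Ω) ^ k * (s : Ω) ^ (-k).toNat := by
      rw [← zpow_natCast, ← zpow_natCast, ← zpow_add₀ hs0]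
      congr 1
      omega
    rw [h2]; ring
  have keyR : ε * (∏ ζ ∈ S, (s - ζ) ^ (-m ζ).toNat) * s ^ k.toNat
      = (∏ ζ ∈ S, (s - ζ) ^ (m ζ).toNat) * s ^ (-k).toNat := by
    apply Subtype.ext
    push_cast
    exact key
  have keyR' : ε * (∏ ζ ∈ S, (s - ζ) ^ (m ζ).toNat) * s ^ (-k).toNat
      = (∏ ζ ∈ S, (s - ζ) ^ (-m ζ).toNat) * s ^ k.toNat := by
    have : ε * (∏ ζ ∈ S, (s - ζ) ^ (m ζ).toNat) * s ^ (-k).toNat
        = ε * ((∏ ζ ∈ S, (s - ζ) ^ (m ζ).toNat) * s ^ (-k).toNat) := by ring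
    rw [this, ← keyR]
    calc ε * (ε * (∏ ζ ∈ S, (s - ζ) ^ (-m ζ).toNat) * s ^ k.toNat)
        = (ε * ε) * ((∏ ζ ∈ S, (s - ζ) ^ (-m ζ).toNat) * s ^ k.toNat) := by ring
      _ = _ := by rw [hε, one_mul]
  -- a maximal element
  obtain ⟨ζ0, hζ0S, hζ0⟩ := hcon
  have hT : (S.filter (fun ζ => m ζ ≠ 0)).Nonempty := ⟨ζ0, Finset.mem_filter.mpr ⟨hζ0S, hζ0⟩⟩
  obtain ⟨ζ1, hζ1, hmax⟩ := Finset.exists_max_image (S.filter (fun ζ => m ζ ≠ 0))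
    (fun ζ => orderOf (ζ ^ 2)) hT
  rw [Finset.mem_filter] at hζ1
  rcases lt_or_gt_of_ne hζ1.2 with hneg | hpos
  · refine indep_core S hS (fun ζ => (-m ζ).toNat) (fun ζ => (m ζ).toNat) ?_ ε _ _ s hs keyR ζ1
      hζ1.1 ?_ ?_
    · intro ζ _
      omega
    · skip
      omega
    · intro ζ hζ hb
      exact hmax ζ (Finset.mem_filter.mpr ⟨hζ, by omega⟩)
  · refine indep_core S hS (fun ζ => (m ζ).toNat) (fun ζ => (-m ζ).toNat) ?_ ε _ _ s hs keyR' ζ1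
      hζ1.1 ?_ ?_
    · intro ζ _
      omega
    · skip
      omega
    · intro ζ hζ hb
      exact hmax ζ (Finset.mem_filter.mpr ⟨hζ, by omega⟩)

end Pool.Agent.Helper72K9.BBP
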