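import Mathlib

open Finset

namespace Pool.Agent.Helper72K9.BBP

/-- The degree-one series `∑_k z^k / (n k + j)`. -/
noncomputable def S (z : ℂ) (n j : ℕ) : ℂ := ∑' k : ℕ, z ^ k / ((n * k + j : ℕ) : ℂ)

/-- The standard primitive root of unity. -/
noncomputable def zt (n : ℕ) : ℂ := Complex.exp (2 * Real.pi * Complex.I / n)

theorem zt_prim (n : ℕ) (hn : 0 < n) : IsPrimitiveRoot (zt n) n :=
  Complex.isPrimitiveRoot_exp n hn.ne'

theorem norm_zt (n : ℕ) (hn : 0 < n) (t : ℕ) : ‖zt n ^ t‖ = 1 := by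
  rw [norm_pow, Complex.norm_eq_one_of_pow_eq_one (zt_prim n hn).pow_eq_one hn.ne', one_pow]

theorem geom (n : ℕ) (hn : 0 < n) (a : ℕ) :
    ∑ t ∈ range n, (zt n ^ a) ^ t = if n ∣ a then (n : ℂ) else 0 := by
  have hp := zt_prim n hn
  split_ifs with h
  · have : zt n ^ a = 1 := (hp.pow_eq_one_iff_dvd a).mpr h
    simp [this]
  · have h1 : zt n ^ a ≠ 1 := fun h2 => h ((hp.pow_eq_one_iff_dvd a).mp h2)
    rw [geom_sum_eq h1, ← pow_mul, mul_comm, pow_mul, hp.pow_eq_one, one_pow, sub_self, zero_div]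

theorem hasSum_log (n j : ℕ) (hn : 0 < n) (hj : 0 < j) (hjn : j ≤ n) (x : ℝ) (hx0 : 0 < x)
    (hx1 : x < 1) :
    HasSum (fun k : ℕ => (n : ℂ) * (x : ℂ) ^ j * (((x : ℂ) ^ n) ^ k / ((n * k + j : ℕ) : ℂ)))
      (∑ t ∈ range n, zt n ^ ((n - j) * t) * (-Complex.log (1 - zt n ^ t * x))) := by
  have h1 : ∀ t ∈ range n, HasSum (fun l : ℕ => zt n ^ ((n - j) * t) * ((zt n ^ t * x) ^ l / l))
      (zt n ^ ((n - j) * t) * (-Complex.log (1 - zt n ^ t * x))) := by
    intro t _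
    apply HasSum.mul_left
    apply Complex.hasSum_taylorSeries_neg_log
    rw [norm_mul, norm_zt n hn, one_mul, Complex.norm_real, Real.norm_eq_abs, abs_of_pos hx0]
    exact hx1
  have h2 := hasSum_sum h1
  have h3 : ∀ l : ℕ, ∑ t ∈ range n, zt n ^ ((n - j) * t) * ((zt n ^ t * (x : ℂ)) ^ l / l)
      = (if n ∣ (l + (n - j)) then (n : ℂ) else 0) * ((x : ℂ) ^ l / l) := by
    intro l
    rw [← geom n hn, sum_mul]
    refine sum_congr rfl fun t _ => ?_
    have : (zt n ^ (l + (n - j))) ^ t = zt n ^ ((n - j) * t) * (zt n ^ t) ^ l := by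
      rw [← pow_mul, ← pow_mul, ← pow_add]
      congr 1
      ring
    rw [this, mul_pow]
    ring
  simp_rw [h3] at h2
  have hinj : Function.Injective (fun k : ℕ => n * k + j) := by
    intro a b hab
    simp only at hab
    have : n * a = n * b := by omega
    exact Nat.eq_of_mul_eq_mul_left hn this
  have h4 : ∀ l : ℕ, l ∉ Set.range (fun k : ℕ => n * k + j) →
      (if n ∣ (l + (n - j)) then (n : ℂ) else 0) * ((x : ℂ) ^ l / l) = 0 := by
    intro l hl
    split_ifs with h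
    · rcases Nat.eq_zero_or_pos l with h0 | h0
      · subst h0; simp
      · exfalso
        obtain ⟨q, hq⟩ := h
        apply hl
        have hq0 : q ≠ 0 := by
          rintro rfl
          rw [mul_zero] at hq
          omega
        obtain ⟨q', rfl⟩ := Nat.exists_eq_succ_of_ne_zero hq0
        refine ⟨q', ?_⟩
        simp only
        rw [Nat.mul_succ] at hq
        omega
    · rw [zero_mul]
  have h5 := (hinj.hasSum_iff h4).mpr h2
  convert h5 using 1
  ext k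
  simp only [Function.comp_apply]
  have h6 : n ∣ (n * k + j + (n - j)) := ⟨k + 1, by rw [Nat.mul_succ]; omega⟩
  rw [if_pos h6, ← pow_mul, pow_add]
  ring

theorem S_eq (n j : ℕ) (hn : 0 < n) (hj : 0 < j) (hjn : j ≤ n) (x : ℝ) (hx0 : 0 < x)
    (hx1 : x < 1) :
    S ((x : ℂ) ^ n) n j = ∑ t ∈ range n,
      (-((n : ℂ)⁻¹ * ((x : ℂ) ^ j)⁻¹ * zt n ^ ((n - j) * t))) * Complex.log (1 - zt n ^ t * x) := by
  have h := (hasSum_log n j hn hj hjn x hx0 hx1).tsum_eq
  rw [tsum_mul_left] at h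
  have hn0 : (n : ℂ) ≠ 0 := by exact_mod_cast hn.ne'
  have hx0' : (x : ℂ) ≠ 0 := by exact_mod_cast hx0.ne'
  have h1 : S ((x : ℂ) ^ n) n j = (n : ℂ)⁻¹ * ((x : ℂ) ^ j)⁻¹ *
      ((n : ℂ) * (x : ℂ) ^ j * ∑' k : ℕ, ((x : ℂ) ^ n) ^ k / ((n * k + j : ℕ) : ℂ)) := by
    rw [S]
    field_simp
  rw [h1, h, mul_sum]
  refine sum_congr rfl fun t _ => ?_
  ring

/-- Changing the modulus. -/
theorem S_scale (z : ℂ) (c n j : ℕ) (hc : 0 < c) : S z n j = c * S z (c * n) (c * j) := by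
  rw [S, S, ← tsum_mul_left]
  congr 1
  ext k
  have h1 : ((c * n * k + c * j : ℕ) : ℂ) = (c : ℂ) * ((n * k + j : ℕ) : ℂ) := by
    push_cast; ring
  have hc0 : (c : ℂ) ≠ 0 := by exact_mod_cast hc.ne'
  rw [h1]
  by_cases h0 : ((n * k + j : ℕ) : ℂ) = 0
  · rw [h0]; simp
  · field_simp

end Pool.Agent.Helper72K9.BBP
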