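import Pool.Agent.Helper72K9.BBP.Galois
import Pool.Agent.Helper72K9.BBP.Indep
import Pool.Agent.Helper72K9.BBP.Logs

open Finset

namespace Pool.Agent.Helper72K9.BBP

/-- An algebraic number as an element of `QB`. -/
noncomputable def mkQ (z : ℂ) (hz : IsAlgebraic ℚ z) : QB :=
  ⟨z, mem_algebraicClosure_iff.mpr hz⟩

theorem isInt_zt (n : ℕ) (hn : 0 < n) : IsIntegral ℤ (zt n) :=
  (zt_prim n hn).isIntegral hn

theorem alg_zt (n : ℕ) (hn : 0 < n) : IsAlgebraic ℚ (zt n) := by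
  have h : IsIntegral ℚ (zt n) := (isInt_zt n hn).tower_top
  exact h.isAlgebraic

/-- The standard root of unity in `QB`. -/
noncomputable def ztQ (n : ℕ) (hn : 0 < n) : QB := mkQ (zt n) (alg_zt n hn)

theorem coe_ztQ (n : ℕ) (hn : 0 < n) : ((ztQ n hn : QB) : ℂ) = zt n := rfl

theorem ztQ_pow (n : ℕ) (hn : 0 < n) : (ztQ n hn) ^ n = 1 := by
  apply Subtype.ext
  change (zt n) ^ n = 1
  exact (zt_prim n hn).pow_eq_one

theorem ztQ_prim (n : ℕ) (hn : 0 < n) : IsPrimitiveRoot (ztQ n hn) n :=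
  IsPrimitiveRoot.of_map_of_injective (f := algebraMap QB ℂ) (zt_prim n hn)
    (algebraMap QB ℂ).injective

theorem ztQ_mem (n : ℕ) (hn : 0 < n) : ztQ n hn ∈ CMF := root_mem_CMF _ n hn (ztQ_pow n hn)

/-- The root of unity as an algebraic integer. -/
noncomputable def ztR (n : ℕ) (hn : 0 < n) : integralClosure ℤ QB :=
  ⟨ztQ n hn, IsIntegral.of_pow hn (by rw [ztQ_pow]; exact isIntegral_one)⟩

theorem alg_sqrt : IsAlgebraic ℚ ((Real.sqrt 10 : ℝ) : ℂ) := by
  apply IsAlgebraic.of_pow (n := 2) (by norm_num)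
  have : ((Real.sqrt 10 : ℝ) : ℂ) ^ 2 = 10 := by
    rw [← Complex.ofReal_pow, Real.sq_sqrt (by norm_num)]; norm_num
  rw [this]
  have h10 : (10 : ℂ) = algebraMap ℚ ℂ 10 := by rw [map_ofNat]
  rw [h10]
  exact isAlgebraic_algebraMap _

/-- The square root of ten in `QB`. -/
noncomputable def sQ : QB := mkQ ((Real.sqrt 10 : ℝ) : ℂ) alg_sqrt

theorem coe_sQ : ((sQ : QB) : ℂ) = ((Real.sqrt 10 : ℝ) : ℂ) := rfl

theorem sQ_sq : sQ ^ 2 = algebraMap ℚ QB 10 := by
  apply Subtype.ext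
  change ((Real.sqrt 10 : ℝ) : ℂ) ^ 2 = ((algebraMap ℚ QB 10 : QB) : ℂ)
  have h1 : ((algebraMap ℚ QB 10 : QB) : ℂ) = (10 : ℂ) := by
    change algebraMap QB ℂ (algebraMap ℚ QB 10) = 10
    rw [← IsScalarTower.algebraMap_apply ℚ QB ℂ 10, map_ofNat]
  rw [← Complex.ofReal_pow, Real.sq_sqrt (by norm_num), h1]; norm_num

theorem sQ_int : IsIntegral ℤ sQ := by
  apply IsIntegral.of_pow (n := 2) (by norm_num)
  rw [sQ_sq]
  have : algebraMap ℚ QB 10 = algebraMap ℤ QB 10 := by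
    rw [map_ofNat, map_ofNat]
  rw [this]
  exact isIntegral_algebraMap

/-- The square root of ten as an algebraic integer. -/
noncomputable def sR : integralClosure ℤ QB := ⟨sQ, sQ_int⟩

theorem sR_sq : sR ^ 2 = 10 := by
  apply Subtype.ext
  change sQ ^ 2 = ((10 : integralClosure ℤ QB) : QB)
  rw [sQ_sq, map_ofNat]
  exact (map_ofNat (integralClosure ℤ QB).val 10).symm

/-- The family `π i, log (1 - ζ ^ t / √10)`. -/
noncomputable def fam (M : ℕ) : Option (Fin M) → ℂ := fun i =>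
  i.elim ((Real.pi : ℂ) * Complex.I)
    (fun t => Complex.log (1 - zt M ^ (t : ℕ) * (((Real.sqrt 10)⁻¹ : ℝ) : ℂ)))

theorem one_sub_ne (M : ℕ) (hM : 0 < M) (t : ℕ) (x : ℝ) (hx0 : 0 < x) (hx1 : x < 1) :
    1 - zt M ^ t * (x : ℂ) ≠ 0 := by
  intro h
  have h1 : zt M ^ t * (x : ℂ) = 1 := (sub_eq_zero.mp h).symm
  have h2 := congrArg norm h1
  rw [norm_mul, norm_zt M hM, one_mul, Complex.norm_real, Real.norm_eq_abs, abs_of_pos hx0,
    norm_one] at h2
  linarith

theorem inv_sqrt_pos : 0 < (Real.sqrt 10)⁻¹ := by positivity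

theorem inv_sqrt_lt : (Real.sqrt 10)⁻¹ < 1 := by
  apply inv_lt_one_of_one_lt₀
  rw [Real.lt_sqrt (by norm_num)]; norm_num

theorem linInd (M : ℕ) (hM : 0 < M) : LinearIndependent ℚ (fam M) := by
  rw [← LinearIndependent.iff_fractionRing ℤ ℚ, Fintype.linearIndependent_iff]
  intro g hg
  rw [Fintype.sum_option] at hg
  have hexp := congrArg Complex.exp hg
  rw [Complex.exp_add, Complex.exp_sum, Complex.exp_zero] at hexp
  have h1 : ∀ t : Fin M, Complex.exp (g (some t) • fam M (some t))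
      = (1 - zt M ^ (t : ℕ) * (((Real.sqrt 10)⁻¹ : ℝ) : ℂ)) ^ g (some t) := by
    intro t
    rw [zsmul_eq_mul, Complex.exp_int_mul]
    congr 1
    exact Complex.exp_log (one_sub_ne M hM t _ inv_sqrt_pos inv_sqrt_lt)
  have h0 : Complex.exp (g none • fam M none) = (-1) ^ g none := by
    rw [zsmul_eq_mul, Complex.exp_int_mul]
    congr 1
    exact Complex.exp_pi_mul_I
  rw [h0, Finset.prod_congr rfl (fun t _ => h1 t)] at hexp
  -- sign
  obtain ⟨ε, hε1, hε2⟩ : ∃ ε : integralClosure ℤ QB, ε * ε = 1 ∧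
      (((ε : QB) : ℂ)) * (-1) ^ g none = 1 := by
    rcases Int.even_or_odd (g none) with he | ho
    · exact ⟨1, by norm_num, by rw [he.neg_one_zpow]; simp⟩
    · exact ⟨-1, by norm_num, by rw [ho.neg_one_zpow]; simp⟩
  have hs0 : (((Real.sqrt 10 : ℝ)) : ℂ) ≠ 0 := by
    have : Real.sqrt 10 ≠ 0 := by positivity
    exact_mod_cast this
  have h2 : ∀ t : Fin M, (1 - zt M ^ (t : ℕ) * (((Real.sqrt 10)⁻¹ : ℝ) : ℂ)) ^ g (some t)
      = (((Real.sqrt 10 : ℝ) : ℂ) - zt M ^ (t : ℕ)) ^ g (some t) *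
        (((Real.sqrt 10 : ℝ) : ℂ)) ^ (-g (some t)) := by
    intro t
    rw [zpow_neg, ← inv_zpow, ← mul_zpow]
    congr 1
    rw [Complex.ofReal_inv]
    field_simp
  rw [Finset.prod_congr rfl (fun t _ => h2 t), Finset.prod_mul_distrib] at hexp
  have h3 : ∏ t : Fin M, (((Real.sqrt 10 : ℝ) : ℂ)) ^ (-g (some t))
      = (((Real.sqrt 10 : ℝ) : ℂ)) ^ (-∑ t : Fin M, g (some t)) := by
    rw [← Finset.sum_neg_distrib]
    have : ∀ s : Finset (Fin M), ∏ t ∈ s, (((Real.sqrt 10 : ℝ) : ℂ)) ^ (-g (some t))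
      = (((Real.sqrt 10 : ℝ) : ℂ)) ^ (∑ t ∈ s, -g (some t)) := by
      intro s
      induction s using Finset.induction_on with
      | empty => simp
      | insert a s ha ih => rw [Finset.prod_insert ha, Finset.sum_insert ha, zpow_add₀ hs0, ih]
    exact this _
  rw [h3] at hexp
  have h4 : ∏ t : Fin M, (((Real.sqrt 10 : ℝ) : ℂ) - zt M ^ (t : ℕ)) ^ g (some t)
      = ((ε : QB) : ℂ) * (((Real.sqrt 10 : ℝ) : ℂ)) ^ (∑ t : Fin M, g (some t)) := by
    have h5 : (((Real.sqrt 10 : ℝ) : ℂ)) ^ (-∑ t : Fin M, g (some t)) *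
        (((Real.sqrt 10 : ℝ) : ℂ)) ^ (∑ t : Fin M, g (some t)) = 1 := by
      rw [← zpow_add₀ hs0]; simp
    set A := ∏ t : Fin M, (((Real.sqrt 10 : ℝ) : ℂ) - zt M ^ (t : ℕ)) ^ g (some t) with hA
    calc A = A * (((ε : QB) : ℂ) * (-1) ^ g none) *
          ((((Real.sqrt 10 : ℝ) : ℂ)) ^ (-∑ t : Fin M, g (some t)) *
            (((Real.sqrt 10 : ℝ) : ℂ)) ^ (∑ t : Fin M, g (some t))) := by rw [hε2, h5]; ring
      _ = ((-1) ^ g none * (A * (((Real.sqrt 10 : ℝ) : ℂ)) ^ (-∑ t : Fin M, g (some t)))) *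
          (((ε : QB) : ℂ) * (((Real.sqrt 10 : ℝ) : ℂ)) ^ (∑ t : Fin M, g (some t))) := by ring
      _ = _ := by rw [hexp, one_mul]
  -- transfer to algebraic integers
  classical
  have hinj : ∀ t t' : Fin M, (ztR M hM) ^ (t : ℕ) = (ztR M hM) ^ (t' : ℕ) → t = t' := by
    intro t t' h
    have h5 : (ztQ M hM) ^ (t : ℕ) = (ztQ M hM) ^ (t' : ℕ) := congrArg Subtype.val h
    exact Fin.ext ((ztQ_prim M hM).pow_inj t.2 t'.2 h5)
  set m : integralClosure ℤ QB → ℤ := fun η =>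
    ∑ t : Fin M, if (ztR M hM) ^ (t : ℕ) = η then g (some t) else 0 with hm
  have hmt : ∀ t : Fin M, m ((ztR M hM) ^ (t : ℕ)) = g (some t) := by
    intro t
    rw [hm]
    simp only
    rw [Finset.sum_eq_single t]
    · simp
    · intro b _ hb
      rw [if_neg]
      intro h
      exact hb (hinj _ _ h)
    · intro h; exact absurd (Finset.mem_univ t) h
  have h6 : ∏ ζ ∈ Finset.univ.image (fun t : Fin M => (ztR M hM) ^ (t : ℕ)),
      ((sR : QB) - (ζ : QB)) ^ m ζ = (ε : QB) * (sR : QB) ^ (∑ t : Fin M, g (some t)) := by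
    rw [Finset.prod_image (fun t _ t' _ h => hinj t t' h)]
    apply (algebraMap QB ℂ).injective
    rw [map_prod, map_mul, map_zpow₀]
    have h7 : ∀ t : Fin M, (algebraMap QB ℂ) (((sR : QB) -
        (((ztR M hM) ^ (t : ℕ) : integralClosure ℤ QB) : QB)) ^ m ((ztR M hM) ^ (t : ℕ)))
        = (((Real.sqrt 10 : ℝ) : ℂ) - zt M ^ (t : ℕ)) ^ g (some t) := by
      intro t
      rw [map_zpow₀, map_sub, hmt]
      rfl
    rw [Finset.prod_congr rfl (fun t _ => h7 t), h4]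
    rfl
  have h8 := indep _ ?_ sR sR_sq m _ ε hε1 h6
  · have hsome : ∀ t : Fin M, g (some t) = 0 := by
      intro t
      rw [← hmt t]
      exact h8 _ (Finset.mem_image.mpr ⟨t, Finset.mem_univ t, rfl⟩)
    have hnone : g none = 0 := by
      have h9 : g none • fam M none = 0 := by
        have : ∑ t : Fin M, g (some t) • fam M (some t) = 0 :=
          Finset.sum_eq_zero fun t _ => by rw [hsome t, zero_smul]
        rwa [this, add_zero] at hg
      rw [smul_eq_zero] at h9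
      rcases h9 with h9 | h9
      · exact h9
      · exfalso
        have : (Real.pi : ℂ) * Complex.I ≠ 0 :=
          mul_ne_zero (by exact_mod_cast Real.pi_ne_zero) Complex.I_ne_zero
        exact this h9
    intro i
    cases i with
    | none => exact hnone
    | some t => exact hsome t
  · intro ζ hζ
    obtain ⟨t, _, rfl⟩ := Finset.mem_image.mp hζ
    refine ⟨M, hM, ?_⟩
    apply Subtype.ext
    change ((ztQ M hM) ^ (t : ℕ)) ^ M = 1
    rw [← pow_mul, mul_comm, pow_mul, ztQ_pow, one_pow]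

end Pool.Agent.Helper72K9.BBP
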