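import Mathlib

open Polynomial

namespace Pool.Agent.Helper72K9.BBP

section conj

variable {Ω : Type*} [Field Ω] [Algebra ℚ Ω] [Algebra.IsAlgebraic ℚ Ω]

theorem multiset_norm_lt (s : Multiset ℂ) (hs : s ≠ 0) (h : ∀ z ∈ s, ‖z‖ < 1) : ‖s.prod‖ < 1 := by
  induction s using Multiset.induction_on with
  | empty => exact absurd rfl hs
  | cons a s ih =>
    rw [Multiset.prod_cons, norm_mul]
    have ha := h a (Multiset.mem_cons_self a s)
    by_cases h0 : s = 0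
    · subst h0; simpa using ha
    · have := ih h0 (fun z hz => h z (Multiset.mem_cons_of_mem hz))
      nlinarith [norm_nonneg a, norm_nonneg s.prod]

/-- A nonzero algebraic integer has a conjugate of absolute value at least one. -/
theorem exists_conj_ge (t : Ω) (ht : IsIntegral ℤ t) (h0 : t ≠ 0) :
    ∃ φ : Ω →ₐ[ℚ] ℂ, 1 ≤ ‖φ t‖ := by
  by_contra hcon
  push Not at hcon
  have hmp : minpoly ℚ t = (minpoly ℤ t).map (algebraMap ℤ ℚ) :=
    minpoly.isIntegrallyClosed_eq_field_fractions' ℚ ht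
  have hrange := Algebra.IsAlgebraic.range_eval_eq_rootSet_minpoly (F := ℚ) ℂ t
  set f : ℂ[X] := (minpoly ℤ t).map (algebraMap ℤ ℂ) with hf
  have hmon : f.Monic := (minpoly.monic ht).map _
  have hsp : f.Splits := IsAlgClosed.splits f
  have hc := hsp.coeff_zero_eq_prod_roots_of_monic hmon
  have hroots : ∀ z ∈ f.roots, ‖z‖ < 1 := by
    intro z hz
    have hz' : z ∈ (minpoly ℚ t).rootSet ℂ := by
      rw [mem_rootSet', hmp, Polynomial.map_map]
      rw [mem_roots hmon.ne_zero] at hz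
      constructor
      · have : (algebraMap ℚ ℂ).comp (algebraMap ℤ ℚ) = algebraMap ℤ ℂ := by
          ext; simp
        rw [this]; exact hmon.ne_zero
      · rw [aeval_map_algebraMap]
        rw [hf, IsRoot.def, eval_map] at hz
        exact hz
    rw [← hrange] at hz'
    obtain ⟨φ, hφ⟩ := hz'
    simp only at hφ
    rw [← hφ]; exact hcon φ
  have hdeg : 0 < (minpoly ℤ t).natDegree := minpoly.natDegree_pos ht
  have hfd : f.natDegree = (minpoly ℤ t).natDegree := (minpoly.monic ht).natDegree_map _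
  have hne : f.roots ≠ 0 := by
    intro h
    have := hsp.natDegree_eq_card_roots
    rw [h, hfd] at this
    simp at this; omega
  have hlt := multiset_norm_lt f.roots hne hroots
  have hcn : ‖f.coeff 0‖ < 1 := by
    rw [hc, norm_mul, norm_pow, norm_neg, norm_one, one_pow, one_mul]; exact hlt
  have hc0 : (minpoly ℤ t).coeff 0 ≠ 0 := by
    have h1 : (minpoly ℚ t).coeff 0 ≠ 0 :=
      minpoly.coeff_zero_ne_zero (Algebra.IsIntegral.isIntegral t) h0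
    intro h2
    apply h1
    rw [hmp, coeff_map, h2, map_zero]
  rw [hf, coeff_map] at hcn
  have h1 : (1 : ℝ) ≤ ‖(algebraMap ℤ ℂ) ((minpoly ℤ t).coeff 0)‖ := by
    simp only [algebraMap_int_eq, eq_intCast, Complex.norm_intCast]
    exact_mod_cast Int.one_le_abs hc0
  linarith

theorem not_dvd (a y : integralClosure ℤ Ω) (hy : y ≠ 0)
    (ha : ∀ φ : Ω →ₐ[ℚ] ℂ, 2 < ‖φ a‖) (hy2 : ∀ φ : Ω →ₐ[ℚ] ℂ, ‖φ y‖ ≤ 2) : ¬ a ∣ y := by
  rintro ⟨t, rfl⟩
  have ht0 : (t : Ω) ≠ 0 := by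
    intro h
    apply hy
    have : t = 0 := by exact_mod_cast h
    rw [this, mul_zero]
  obtain ⟨φ, hφ⟩ := exists_conj_ge (t : Ω) t.2 ht0
  have h1 := hy2 φ
  have h2 : ((a * t : integralClosure ℤ Ω) : Ω) = (a : Ω) * (t : Ω) := rfl
  rw [h2, map_mul, norm_mul] at h1
  nlinarith [ha φ]

end conj

section ideals

variable {R : Type*} [CommRing R] [IsDomain R]

theorem prime_eq (P : Ideal R) [hP : P.IsPrime] (p q : ℕ) (hp : p.Prime) (hq : q.Prime)
    (hpP : (p : R) ∈ P) (ξ : R) (hξ : IsPrimitiveRoot ξ q) (h1 : ξ - 1 ∈ P) : q = p := by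
  by_contra hne
  obtain ⟨n, rfl⟩ : ∃ n, q = n + 1 := ⟨q - 1, by have := hq.one_lt; omega⟩
  have hn : 0 < n := by have := hq.one_lt; omega
  have hprod := IsPrimitiveRoot.prod_one_sub_pow_eq_order hξ
  have hmem : ((n + 1 : ℕ) : R) ∈ P := by
    push_cast
    rw [← hprod]
    have : (1 - ξ ^ (0 + 1)) ∣ ∏ k ∈ Finset.range n, (1 - ξ ^ (k + 1)) :=
      Finset.dvd_prod_of_mem (fun k => 1 - ξ ^ (k + 1)) (Finset.mem_range.mpr hn)
    refine Ideal.mem_of_dvd P this ?_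
    have : (1 - ξ ^ (0 + 1)) = -(ξ - 1) := by ring
    rw [this]; exact P.neg_mem h1
  have hcop : Nat.Coprime (n + 1) p := (Nat.coprime_primes hq hp).mpr hne
  have hbez : ((Nat.gcd (n + 1) p : ℕ) : ℤ) = (n + 1 : ℕ) * Nat.gcdA (n + 1) p + p * Nat.gcdB (n + 1) p :=
    Nat.gcd_eq_gcd_ab _ _
  rw [hcop] at hbez
  have h1P : (1 : R) ∈ P := by
    have : (1 : R) = ((n + 1 : ℕ) : R) * ((Nat.gcdA (n + 1) p : ℤ) : R)
        + (p : R) * ((Nat.gcdB (n + 1) p : ℤ) : R) := by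
      have := congrArg (fun z : ℤ => (z : R)) hbez
      push_cast at this ⊢
      exact this
    rw [this]
    exact P.add_mem (P.mul_mem_right _ hmem) (P.mul_mem_right _ hpP)
  exact hP.ne_top ((Ideal.eq_top_iff_one P).mpr h1P)

omit [IsDomain R] in
theorem char_of (P : Ideal R) [hP : P.IsPrime] (n : ℕ) (hn : n ≠ 0) (h : (n : R) ∈ P) :
    ∃ p : ℕ, p.Prime ∧ ∀ k : ℕ, (k : R) ∈ P ↔ p ∣ k := by
  obtain ⟨p, hp⟩ := CharP.exists (R ⧸ P)
  have key : ∀ k : ℕ, (k : R) ∈ P ↔ p ∣ k := by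
    intro k
    rw [← CharP.cast_eq_zero_iff (R ⧸ P) p k, ← Ideal.Quotient.eq_zero_iff_mem]
    simp
  have hpn : p ∣ n := (key n).mp h
  have hp0 : p ≠ 0 := by
    rintro rfl
    exact hn (Nat.eq_zero_of_zero_dvd hpn)
  refine ⟨p, ?_, key⟩
  rcases CharP.char_is_prime_or_zero (R ⧸ P) p with h | h
  · exact h
  · exact absurd h hp0

theorem q_le_p (s ζ : R) (hs : s ^ 2 = 10) (e : ℕ) (he0 : 0 < e) (he : orderOf (ζ ^ 2) = e)
    (P : Ideal R) [hP : P.IsPrime] (ha : s - ζ ∈ P) (p : ℕ) (hp : p.Prime)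
    (hpP : (p : R) ∈ P) (hp10 : ¬ p ∣ 10) (q : ℕ) (hq : q.Prime) (hqe : q ∣ e) : q ≤ p := by
  obtain ⟨f, hf⟩ := hqe
  have hf0 : 0 < f := by
    rcases Nat.eq_zero_or_pos f with h | h
    · rw [h, mul_zero] at hf; omega
    · exact h
  have hprim : IsPrimitiveRoot ((ζ ^ 2) ^ f) q := by
    have h1 : IsPrimitiveRoot (ζ ^ 2) e := he ▸ IsPrimitiveRoot.orderOf (ζ ^ 2)
    exact h1.pow he0 (by rw [hf, mul_comm])
  set ξ := (ζ ^ 2) ^ f with hξ
  -- ξ ^ (p-1) ≡ 1 mod P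
  have hmem : ξ ^ (p - 1) - 1 ∈ P := by
    have h1 : s ^ (2 * f * (p - 1)) - ζ ^ (2 * f * (p - 1)) ∈ P :=
      Ideal.mem_of_dvd P (sub_dvd_pow_sub_pow s ζ _) ha
    have h2 : s ^ (2 * f * (p - 1)) = (((10 ^ f) ^ (p - 1) : ℕ) : R) := by
      rw [pow_mul, pow_mul, hs]; push_cast; rfl
    have h3 : ζ ^ (2 * f * (p - 1)) = ξ ^ (p - 1) := by
      rw [hξ, pow_mul, pow_mul]
    have hcop : Nat.Coprime (10 ^ f) p := by
      apply Nat.Coprime.pow_left
      exact ((Nat.Prime.coprime_iff_not_dvd hp).mpr hp10).symm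
    have h4 : (10 ^ f) ^ (p - 1) ≡ 1 [MOD p] := by
      have := Nat.ModEq.pow_totient hcop
      rwa [Nat.totient_prime hp] at this
    have h5 : p ∣ (10 ^ f) ^ (p - 1) - 1 := (Nat.modEq_iff_dvd' (Nat.one_le_pow _ _ (by positivity))).mp h4.symm
    obtain ⟨l, hl⟩ := h5
    have h6 : (((10 ^ f) ^ (p - 1) : ℕ) : R) = 1 + (p : R) * (l : R) := by
      have : (10 ^ f) ^ (p - 1) = 1 + p * l := by
        have : 1 ≤ (10 ^ f) ^ (p - 1) := Nat.one_le_pow _ _ (by positivity)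
        omega
      rw [this]; push_cast; rfl
    rw [h2, h3, h6] at h1
    have h7 : ξ ^ (p - 1) - 1 = (p : R) * (l : R) - (1 + (p : R) * (l : R) - ξ ^ (p - 1)) := by ring
    rw [h7]
    exact P.sub_mem (P.mul_mem_right _ hpP) h1
  by_cases h1 : ξ ^ (p - 1) = 1
  · have : q ∣ p - 1 := (hprim.pow_eq_one_iff_dvd _).mp h1
    have := Nat.le_of_dvd (by have := hp.one_lt; omega) this
    omega
  · haveI : Fact q.Prime := ⟨hq⟩
    have hord : orderOf (ξ ^ (p - 1)) = q := by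
      apply orderOf_eq_prime _ h1
      rw [← pow_mul, mul_comm, pow_mul, hprim.pow_eq_one, one_pow]
    have hpr : IsPrimitiveRoot (ξ ^ (p - 1)) q := hord ▸ IsPrimitiveRoot.orderOf _
    exact (prime_eq P p q hp hq hpP _ hpr hmem).le

end ideals

section main

variable {Ω : Type*} [Field Ω] [Algebra ℚ Ω] [Algebra.IsAlgebraic ℚ Ω]

omit [Algebra.IsAlgebraic ℚ Ω] in
theorem norm_root (φ : Ω →ₐ[ℚ] ℂ) (ζ : Ω) (n : ℕ) (hn : n ≠ 0) (h : ζ ^ n = 1) : ‖φ ζ‖ = 1 := by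
  have : (φ ζ) ^ n = 1 := by rw [← map_pow, h, map_one]
  exact Complex.norm_eq_one_of_pow_eq_one this hn

omit [Algebra.IsAlgebraic ℚ Ω] in
theorem norm_sub_gt (φ : Ω →ₐ[ℚ] ℂ) (s ζ : Ω) (hs : s ^ 2 = 10) (n : ℕ) (hn : n ≠ 0)
    (h : ζ ^ n = 1) : 2 < ‖φ (s - ζ)‖ := by
  have h1 := norm_root φ ζ n hn h
  have h2 : ‖φ s‖ ^ 2 = 10 := by
    rw [← norm_pow, ← map_pow, hs]
    have : φ (10 : Ω) = 10 := by
      have := map_ofNat φ 10
      exact this
    rw [this]; norm_num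
  have h3 : 3 < ‖φ s‖ := by nlinarith [norm_nonneg (φ s)]
  rw [map_sub]
  have := norm_sub_norm_le (φ s) (φ ζ)
  linarith

theorem exists_prime (s ζ : integralClosure ℤ Ω) (hs : s ^ 2 = 10) (e : ℕ) (he0 : 0 < e)
    (he : orderOf (ζ ^ 2) = e) :
    ∃ P : Ideal (integralClosure ℤ Ω), P.IsPrime ∧ s - ζ ∈ P ∧
      ∃ p : ℕ, p.Prime ∧ (p : integralClosure ℤ Ω) ∈ P ∧ ¬ p ∣ e := by
  by_contra hcon
  push Not at hcon
  have hζe : (ζ ^ 2) ^ e = 1 := he ▸ pow_orderOf_eq_one _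
  have hζΩ : (ζ : Ω) ^ (2 * e) = 1 := by
    have := congrArg (fun x : integralClosure ℤ Ω => (x : Ω)) hζe
    simpa [pow_mul] using this
  have hsΩ : (s : Ω) ^ 2 = 10 := by
    have h1 : ((s ^ 2 : integralClosure ℤ Ω) : Ω) = ((10 : integralClosure ℤ Ω) : Ω) := by rw [hs]
    have h2 : ((10 : integralClosure ℤ Ω) : Ω) = 10 := map_ofNat (integralClosure ℤ Ω).val 10
    rw [h2] at h1
    exact h1
  have hbig : ∀ φ : Ω →ₐ[ℚ] ℂ, 2 < ‖φ ((s - ζ : integralClosure ℤ Ω) : Ω)‖ := by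
    intro φ
    exact norm_sub_gt φ s ζ hsΩ (2 * e) (by omega) hζΩ
  -- 10^e - 1 lies in every prime containing s - ζ
  have h10 : ∀ P : Ideal (integralClosure ℤ Ω), s - ζ ∈ P →
      ((10 ^ e - 1 : ℕ) : integralClosure ℤ Ω) ∈ P := by
    intro P ha
    have h1 : s ^ (2 * e) - ζ ^ (2 * e) ∈ P := Ideal.mem_of_dvd P (sub_dvd_pow_sub_pow s ζ _) ha
    have h2 : ((10 ^ e - 1 : ℕ) : integralClosure ℤ Ω) = s ^ (2 * e) - ζ ^ (2 * e) := by
      rw [pow_mul, hs, pow_mul, hζe, Nat.cast_sub (Nat.one_le_pow _ _ (by norm_num))]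
      push_cast; rfl
    rw [h2]; exact h1
  have h10ne : 10 ^ e - 1 ≠ 0 := by
    have : 10 ^ 1 ≤ 10 ^ e := Nat.pow_le_pow_right (by norm_num) he0
    omega
  have hchar : ∀ P : Ideal (integralClosure ℤ Ω), P.IsPrime → s - ζ ∈ P →
      ∃ p : ℕ, p.Prime ∧ (∀ k : ℕ, (k : integralClosure ℤ Ω) ∈ P ↔ p ∣ k) ∧ p ∣ e ∧ ¬ p ∣ 10 ∧
        ∀ q : ℕ, q.Prime → q ∣ e → q ≤ p := by
    intro P hP ha
    obtain ⟨p, hp, hk⟩ := char_of P (10 ^ e - 1) h10ne (h10 P ha)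
    have hpP : (p : integralClosure ℤ Ω) ∈ P := (hk p).mpr dvd_rfl
    have hpe : p ∣ e := hcon P hP ha p hp hpP
    have hp10 : ¬ p ∣ 10 := by
      intro h
      have h1 : p ∣ 10 ^ e - 1 := (hk _).mp (h10 P ha)
      have h2 : p ∣ 10 ^ e := dvd_pow h (by omega)
      have h3 : p ∣ 1 := by
        have := (Nat.dvd_sub h2 h1)
        have h4 : 10 ^ e - (10 ^ e - 1) = 1 := by
          have : 1 ≤ 10 ^ e := Nat.one_le_pow _ _ (by norm_num)
          omega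
        rwa [h4] at this
      exact hp.one_lt.ne' (Nat.dvd_one.mp h3)
    exact ⟨p, hp, hk, hpe, hp10, fun q hq hqe => q_le_p s ζ hs e he0 he P ha p hp hpP hp10 q hq hqe⟩
  have hnu : s - ζ ∈ nonunits (integralClosure ℤ Ω) := by
    intro hu
    refine not_dvd (s - ζ) 1 one_ne_zero hbig (fun φ => ?_) hu.dvd
    simp
  obtain ⟨P0, hP0m, hP0⟩ := exists_max_ideal_of_mem_nonunits hnu
  obtain ⟨p, hp, hk, hpe, hp10, hmax⟩ := hchar P0 hP0m.isPrime hP0
  have hall : ∀ P : Ideal (integralClosure ℤ Ω), P.IsMaximal → s - ζ ∈ P →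
      (p : integralClosure ℤ Ω) ∈ P := by
    intro P hP ha
    obtain ⟨p', hp', hk', hpe', -, hmax'⟩ := hchar P hP.isPrime ha
    have : p = p' := le_antisymm (hmax' p hp hpe) (hmax p' hp' hpe')
    exact (hk' p).mpr (this ▸ dvd_rfl)
  obtain ⟨f, hf⟩ := hpe
  have hf0 : 0 < f := by
    rcases Nat.eq_zero_or_pos f with h | h
    · rw [h, mul_zero] at hf; omega
    · exact h
  have hprim : IsPrimitiveRoot ((ζ ^ 2) ^ f) p := by
    have h1 : IsPrimitiveRoot (ζ ^ 2) e := he ▸ IsPrimitiveRoot.orderOf (ζ ^ 2)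
    exact h1.pow he0 (by rw [hf, mul_comm])
  set ω := (ζ ^ 2) ^ f with hω
  -- a divides 10 ^ f - ω
  have hdz : s - ζ ∣ ((10 ^ f : ℕ) : integralClosure ℤ Ω) - ω := by
    have h1 : s - ζ ∣ s ^ (2 * f) - ζ ^ (2 * f) := sub_dvd_pow_sub_pow s ζ _
    have h2 : s ^ (2 * f) = ((10 ^ f : ℕ) : integralClosure ℤ Ω) := by
      rw [pow_mul, hs]; push_cast; rfl
    rw [h2, pow_mul ζ] at h1
    exact h1
  -- p divides 10 ^ f - 1
  have hpf : p ∣ 10 ^ f - 1 := by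
    have h1 : p ∣ 10 ^ e - 1 := (hk _).mp (h10 P0 hP0)
    have h2 : 1 ≡ 10 ^ e [MOD p] := (Nat.modEq_iff_dvd' (Nat.one_le_pow _ _ (by norm_num))).mpr h1
    have h3 : (10 ^ f) ^ p ≡ 10 ^ f [MOD p] := by
      have : Fact p.Prime := ⟨hp⟩
      have : (((10 ^ f) ^ p : ℕ) : ZMod p) = ((10 ^ f : ℕ) : ZMod p) := by
        push_cast
        exact ZMod.pow_card _
      exact (ZMod.natCast_eq_natCast_iff _ _ _).mp this
    have h4 : (10 ^ f) ^ p = 10 ^ e := by rw [← pow_mul, hf, mul_comm]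
    rw [h4] at h3
    exact (Nat.modEq_iff_dvd' (Nat.one_le_pow _ _ (by norm_num))).mp (h2.trans h3)
  obtain ⟨l, hl⟩ := hpf
  have hl' : ((10 ^ f : ℕ) : integralClosure ℤ Ω) = 1 + (p : integralClosure ℤ Ω) * (l : integralClosure ℤ Ω) := by
    have : 10 ^ f = 1 + p * l := by
      have : 1 ≤ 10 ^ f := Nat.one_le_pow _ _ (by norm_num)
      omega
    rw [this]; push_cast; rfl
  -- p = (1-ω)^2 κ
  have hp3 : 3 ≤ p := by
    have h2 := hp.two_le
    rcases Nat.lt_or_ge 2 p with h | h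
    · omega
    · exfalso; apply hp10
      have : p = 2 := by omega
      rw [this]; norm_num
  obtain ⟨κ, hκ⟩ : ∃ κ : integralClosure ℤ Ω, (p : integralClosure ℤ Ω) = (1 - ω) * (1 - ω) * κ := by
    obtain ⟨j, hj⟩ : ∃ j, p = (j + 2) + 1 := ⟨p - 3, by omega⟩
    have hprim' : IsPrimitiveRoot ω ((j + 2) + 1) := hj ▸ hprim
    have hprod := IsPrimitiveRoot.prod_one_sub_pow_eq_order hprim'
    rw [Finset.prod_range_succ', Finset.prod_range_succ'] at hprod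
    refine ⟨(∏ k ∈ Finset.range j, (1 - ω ^ (k + 1 + 1 + 1))) * (1 + ω), ?_⟩
    have : (p : integralClosure ℤ Ω) = ((j + 2 : ℕ) : integralClosure ℤ Ω) + 1 := by
      rw [hj]; push_cast; ring
    rw [this, ← hprod]
    ring
  set v : integralClosure ℤ Ω := 1 + (1 - ω) * κ * l with hv
  have hz : ((10 ^ f : ℕ) : integralClosure ℤ Ω) - ω = (1 - ω) * v := by
    rw [hl', hκ, hv]; ring
  have hcop : IsCoprime (s - ζ) v := by
    rw [← Ideal.isCoprime_span_singleton_iff, Ideal.isCoprime_iff_sup_eq]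
    by_contra hne
    obtain ⟨P, hPm, hle⟩ := Ideal.exists_le_maximal _ hne
    have haP : s - ζ ∈ P := hle (Ideal.mem_sup_left (Ideal.mem_span_singleton_self _))
    have hvP : v ∈ P := hle (Ideal.mem_sup_right (Ideal.mem_span_singleton_self _))
    have hpP := hall P hPm haP
    have hzP : ((10 ^ f : ℕ) : integralClosure ℤ Ω) - ω ∈ P := Ideal.mem_of_dvd P hdz haP
    have h1ω : 1 - ω ∈ P := by
      have : 1 - ω = (((10 ^ f : ℕ) : integralClosure ℤ Ω) - ω) - (p : integralClosure ℤ Ω) * l := by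
        rw [hl']; ring
      rw [this]
      exact P.sub_mem hzP (P.mul_mem_right _ hpP)
    have h1 : (1 : integralClosure ℤ Ω) ∈ P := by
      have : (1 : integralClosure ℤ Ω) = v - (1 - ω) * (κ * l) := by rw [hv]; ring
      rw [this]
      exact P.sub_mem hvP (P.mul_mem_right _ h1ω)
    exact hPm.ne_top ((Ideal.eq_top_iff_one P).mpr h1)
  have hd : s - ζ ∣ 1 - ω := by
    rw [hz] at hdz
    exact hcop.dvd_of_dvd_mul_right hdz
  have hω1 : ω ≠ 1 := hprim.ne_one hp.one_lt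
  refine not_dvd (s - ζ) (1 - ω) (sub_ne_zero.mpr hω1.symm) hbig (fun φ => ?_) hd
  have hωΩ : (ω : Ω) ^ p = 1 := by
    have := congrArg (fun x : integralClosure ℤ Ω => (x : Ω)) hprim.pow_eq_one
    simpa using this
  have h1 := norm_root φ (ω : Ω) p hp.ne_zero hωΩ
  have h2 : ((1 - ω : integralClosure ℤ Ω) : Ω) = 1 - (ω : Ω) := rfl
  rw [h2, map_sub, map_one]
  calc ‖1 - φ (ω : Ω)‖ ≤ ‖(1 : ℂ)‖ + ‖φ (ω : Ω)‖ := norm_sub_le _ _
    _ = 2 := by rw [h1, norm_one]; norm_num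

end main

end Pool.Agent.Helper72K9.BBP
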